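import Pool.Agent.H47.Odd.Basic

set_option autoImplicit false

namespace Pool.Agent.H47.Odd

open Finset Classical

/-- the constant `(3 - √5) / 2` -/
noncomputable def c0 : ℝ := (3 - √5) / 2

theorem sqrt5_bounds : (2.236 : ℝ) < √5 ∧ √5 < 2.2361 := by
  constructor
  · rw [Real.lt_sqrt (by norm_num)]; norm_num
  · rw [Real.sqrt_lt' (by norm_num)]; norm_num

theorem c0_root : c0 ^ 2 - 3 * c0 + 1 = 0 := by
  unfold c0
  have := Real.sq_sqrt (show (0 : ℝ) ≤ 5 by norm_num)
  nlinarith

theorem c0_bounds : (0.38 : ℝ) < c0 ∧ c0 < 0.382 := by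
  have := sqrt5_bounds
  unfold c0
  constructor <;> linarith [this.1, this.2]

theorem abc_poly (a b k : ℝ) (ha : 0 ≤ a) (hb : 0 ≤ b) (hk : 0 ≤ k) (hk2 : k ≤ 1 / 10)
    (ht : 2 * a + b ≤ 1 / 2) :
    (1 / 8) * (1 - 3 * (2 * a + b) + (2 * a + b) ^ 2) - (5 / 4) * k ≤
    ((1 / 2 - k) - b) * (1 / 2 - k) * ((1 / 2 - k) - a) - b * (1 / 2 - k) * (a + k)
      - (1 - a - b) * (a + k) * ((1 / 2 - k) - b) := by
  have h1 : (1 / 2 - b) * (1 / 2) * (1 / 2 - a) - b * (1 / 2) * a - (1 - a - b) * a * (1 / 2 - b)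
      = (1 / 8) * (1 - 3 * (2 * a + b) + (2 * a + b) ^ 2)
        + (b / 4) * ((1 - (2 * a + b)) / 2 + (5 - 4 * (2 * a + b)) * a + 4 * a ^ 2) := by ring
  have h2 : 0 ≤ (b / 4) * ((1 - (2 * a + b)) / 2 + (5 - 4 * (2 * a + b)) * a + 4 * a ^ 2) := by
    apply mul_nonneg (by linarith)
    have : 0 ≤ (5 - 4 * (2 * a + b)) * a := mul_nonneg (by linarith) ha
    have : 0 ≤ 4 * a ^ 2 := by positivity
    linarith
  have hab : 0 ≤ 1 / 2 - b := by linarith
  have haa : 0 ≤ 1 / 2 - a := by linarith
  have h3 : (1 / 2 - b) * (1 / 2) * (1 / 2 - a) - (3 / 4) * k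
      ≤ ((1 / 2 - k) - b) * (1 / 2 - k) * ((1 / 2 - k) - a) := by
    have e : (1 / 2 - b) * (1 / 2) * (1 / 2 - a) - ((1 / 2 - k) - b) * (1 / 2 - k) * ((1 / 2 - k) - a)
        = k * ((1 / 2 - b) * (1 / 2) + (1 / 2) * (1 / 2 - a) + (1 / 2 - a) * (1 / 2 - b))
          - k ^ 2 * ((1 / 2 - b) + (1 / 2 - a) + (1 / 2 - k)) := by ring
    have e1 : (1 / 2 - b) * (1 / 2) + (1 / 2) * (1 / 2 - a) + (1 / 2 - a) * (1 / 2 - b) ≤ 3 / 4 := by
      nlinarith
    have e2 : 0 ≤ k ^ 2 * ((1 / 2 - b) + (1 / 2 - a) + (1 / 2 - k)) := by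
      apply mul_nonneg (sq_nonneg _); linarith
    have e3 := mul_le_mul_of_nonneg_left e1 hk
    linarith
  have h4 : b * (1 / 2 - k) * (a + k) ≤ b * (1 / 2) * a + b * k / 2 := by
    have e : b * (1 / 2) * a + b * k / 2 - b * (1 / 2 - k) * (a + k) = b * k * (a + k) := by ring
    have : 0 ≤ b * k * (a + k) := by positivity
    linarith
  have h5 : (1 - a - b) * (a + k) * ((1 / 2 - k) - b) ≤ (1 - a - b) * a * (1 / 2 - b)
      + (1 - a - b) * k / 2 := by
    have e : (1 - a - b) * a * (1 / 2 - b) + (1 - a - b) * k / 2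
        - (1 - a - b) * (a + k) * ((1 / 2 - k) - b) = (1 - a - b) * k * (b + a + k) := by ring
    have : 0 ≤ (1 - a - b) * k * (b + a + k) := by
      apply mul_nonneg (mul_nonneg (by linarith) hk); linarith
    linarith
  have h6 : b * k / 2 + (1 - a - b) * k / 2 ≤ k / 2 := by nlinarith
  linarith

/-- Numerical heart of the spectral bound. -/
theorem abc_num (a b g η : ℝ) (ha : 0 ≤ a) (hb : 0 ≤ b) (hsum : a + b + g ≤ 1)
    (hη : 0 < η) (hη2 : η ≤ 1 / 10) (ht : 2 * a + b ≤ c0 - η) :
    0 < (1 / 2 - η / 8) - b ∧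
    a + b * ((a + η / 8) / ((1 / 2 - η / 8) - b)) + g * ((a + η / 8) / (1 / 2 - η / 8))
      ≤ 1 / 2 - η / 8 := by
  have hc := c0_bounds
  have hroot := c0_root
  have hpos : 0 < (1 / 2 - η / 8) - b := by linarith [hc.2]
  have hl : 0 < 1 / 2 - η / 8 := by linarith
  refine ⟨hpos, ?_⟩
  have hp := abc_poly a b (η / 8) ha hb (by linarith) (by linarith) (by linarith [hc.2])
  set t := 2 * a + b with htdef
  have h1 : 2 * η ≤ 1 - 3 * t + t ^ 2 := by
    have h2 : t ≤ c0 - η := ht
    have h3 : 0 ≤ t := by rw [htdef]; linarith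
    nlinarith [hc.1, hc.2]
  have h2 : 0 ≤ ((1 / 2 - η / 8) - b) * (1 / 2 - η / 8) * ((1 / 2 - η / 8) - a)
      - b * (1 / 2 - η / 8) * (a + η / 8)
      - (1 - a - b) * (a + η / 8) * ((1 / 2 - η / 8) - b) := by
    linarith
  have h3 : g * (a + η / 8) * ((1 / 2 - η / 8) - b) ≤
      (1 - a - b) * (a + η / 8) * ((1 / 2 - η / 8) - b) := by
    apply mul_le_mul_of_nonneg_right _ hpos.le
    apply mul_le_mul_of_nonneg_right _ (by linarith)
    linarith
  rw [← sub_nonneg]
  have e : (1 / 2 - η / 8) - (a + b * ((a + η / 8) / ((1 / 2 - η / 8) - b))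
      + g * ((a + η / 8) / (1 / 2 - η / 8)))
      = (((1 / 2 - η / 8) - b) * (1 / 2 - η / 8) * ((1 / 2 - η / 8) - a)
      - b * (1 / 2 - η / 8) * (a + η / 8)
      - g * (a + η / 8) * ((1 / 2 - η / 8) - b)) / (((1 / 2 - η / 8) - b) * (1 / 2 - η / 8)) := by
    rw [eq_div_iff (mul_pos hpos hl).ne']
    have h5 := hpos.ne'
    have h6 := hl.ne'
    generalize (1 / 2 - η / 8) - b = P at h5 ⊢
    generalize (1 / 2 - η / 8) = L at h6 ⊢
    generalize a + η / 8 = x
    field_simp
    try ring
  rw [e]
  apply div_nonneg _ (mul_pos hpos hl).le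
  linarith

variable {α : Type*} [Fintype α]

/-- Spectral bound for graphs with the structure `(A, B, C)`. -/
theorem abc_spec (H : SimpleGraph α) (A B C : Finset α) (hAB : Disjoint A B) (hAC : Disjoint A C)
    (hBC : Disjoint B C)
    (hsupp : ∀ u v, H.Adj u v → u ∈ A ∨ u ∈ B ∨ u ∈ C)
    (hC : ∀ u v, H.Adj u v → u ∈ C → v ∈ A) (η : ℝ) (hη : 0 < η) (hη2 : η ≤ 1 / 10)
    (hn : 0 < Fintype.card α)
    (ht : 2 * (A.card : ℝ) + B.card ≤ (c0 - η) * Fintype.card α) (y : α → ℝ) :
    Q H y ≤ ((1 / 2 - η / 8) * Fintype.card α) * N y := by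
  set n : ℝ := (Fintype.card α : ℝ) with hnd
  have hnpos : 0 < n := by rw [hnd]; exact_mod_cast hn
  set a : ℝ := A.card / n with hadef
  set b : ℝ := B.card / n with hbdef
  set g : ℝ := C.card / n with hgdef
  have ha : 0 ≤ a := by positivity
  have hb : 0 ≤ b := by positivity
  have hg : 0 ≤ g := by positivity
  have hsum : a + b + g ≤ 1 := by
    rw [hadef, hbdef, hgdef, ← add_div, ← add_div, div_le_one hnpos]
    have h1 : (A ∪ B ∪ C).card ≤ Fintype.card α := Finset.card_le_univ _
    rw [Finset.card_union_of_disjoint (by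
      rw [Finset.disjoint_union_left]; exact ⟨hAC, hBC⟩), Finset.card_union_of_disjoint hAB] at h1
    rw [hnd]; exact_mod_cast h1
  have ht2 : 2 * a + b ≤ c0 - η := by
    rw [hadef, hbdef]
    have : 2 * ((A.card : ℝ) / n) + B.card / n = (2 * A.card + B.card) / n := by ring
    rw [this, div_le_iff₀ hnpos]
    exact ht
  obtain ⟨hpos, hmain⟩ := abc_num a b g η ha hb hsum hη hη2 ht2
  have hl : 0 < 1 / 2 - η / 8 := by linarith
  set pB : ℝ := (a + η / 8) / ((1 / 2 - η / 8) - b) with hpB
  set pC : ℝ := (a + η / 8) / (1 / 2 - η / 8) with hpC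
  have hpBpos : 0 < pB := div_pos (by linarith) hpos
  have hpCpos : 0 < pC := div_pos (by linarith) hl
  apply schur H (fun u => if u ∈ A then 1 else if u ∈ B then pB else if u ∈ C then pC else 1)
  · intro u
    change (0 : ℝ) < if u ∈ A then 1 else if u ∈ B then pB else if u ∈ C then pC else 1
    split_ifs <;> linarith
  · intro u
    have hnA : (A.card : ℝ) = a * n := by rw [hadef, div_mul_cancel₀ _ hnpos.ne']
    have hnB : (B.card : ℝ) = b * n := by rw [hbdef, div_mul_cancel₀ _ hnpos.ne']
    have hnC : (C.card : ℝ) = g * n := by rw [hgdef, div_mul_cancel₀ _ hnpos.ne']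
    -- general bound of the sum
    have hgen : ∀ (P : α → Prop) (cA cB cC : ℝ), 0 ≤ cA → 0 ≤ cB → 0 ≤ cC →
        (∀ v, P v → v ∈ A ∨ v ∈ B ∨ v ∈ C) →
        (∀ v, P v → v ∈ A → 1 ≤ cA) → (∀ v, P v → v ∈ B → pB ≤ cB) →
        (∀ v, P v → v ∈ C → pC ≤ cC) →
        (∑ v, if P v then (if v ∈ A then (1 : ℝ) else if v ∈ B then pB else
          if v ∈ C then pC else 1) else 0) ≤ cA * A.card + cB * B.card + cC * C.card := by
      intro P cA cB cC hcA hcB hcC hP hPA hPB hPC
      have e : cA * A.card + cB * B.card + cC * C.card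
          = ∑ v, ((if v ∈ A then cA else 0) + (if v ∈ B then cB else 0) + (if v ∈ C then cC else 0)) := by
        rw [Finset.sum_add_distrib, Finset.sum_add_distrib]
        simp only [Finset.sum_ite_mem, Finset.univ_inter, Finset.sum_const, nsmul_eq_mul]
        ring
      rw [e]
      apply Finset.sum_le_sum
      intro v _
      by_cases hPv : P v
      · simp only [hPv, if_true]
        by_cases hvA : v ∈ A
        · have h1 : v ∉ B := Finset.disjoint_left.mp hAB hvA
          have h2 : v ∉ C := Finset.disjoint_left.mp hAC hvA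
          simp only [hvA, h1, h2, if_true, if_false, add_zero]
          exact hPA v hPv hvA
        · by_cases hvB : v ∈ B
          · have h2 : v ∉ C := Finset.disjoint_left.mp hBC hvB
            simp only [hvA, hvB, h2, if_true, if_false, add_zero, zero_add]
            exact hPB v hPv hvB
          · have hvC : v ∈ C := by
              rcases hP v hPv with h | h | h
              · exact absurd h hvA
              · exact absurd h hvB
              · exact h
            simp only [hvA, hvB, hvC, if_true, if_false, zero_add]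
            exact hPC v hPv hvC
      · simp only [hPv, if_false]
        have : 0 ≤ (if v ∈ A then cA else 0) := by split_ifs <;> linarith
        have : 0 ≤ (if v ∈ B then cB else 0) := by split_ifs <;> linarith
        have : 0 ≤ (if v ∈ C then cC else 0) := by split_ifs <;> linarith
        linarith
    have hsupp' : ∀ v, H.Adj u v → v ∈ A ∨ v ∈ B ∨ v ∈ C := fun v hv => hsupp v u hv.symm
    by_cases huA : u ∈ A
    · simp only [huA, if_true, mul_one]
      have h1 := hgen (fun v => H.Adj u v) 1 pB pC zero_le_one hpBpos.le hpCpos.le hsupp'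
        (fun _ _ _ => le_refl _) (fun _ _ _ => le_refl _) (fun _ _ _ => le_refl _)
      refine h1.trans ?_
      rw [hnA, hnB, hnC]
      have h2 : 1 * (a * n) + pB * (b * n) + pC * (g * n) = (a + b * pB + g * pC) * n := by ring
      rw [h2]
      exact mul_le_mul_of_nonneg_right hmain hnpos.le
    · by_cases huB : u ∈ B
      · simp only [huA, huB, if_true, if_false]
        have h1 := hgen (fun v => H.Adj u v) 1 pB 0 zero_le_one hpBpos.le le_rfl hsupp'
          (fun _ _ _ => le_refl _) (fun _ _ _ => le_refl _) (by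
            intro v huv hvC
            exact absurd (hC v u huv.symm hvC) huA)
        refine h1.trans ?_
        rw [hnA, hnB]
        have h2 : 1 * (a * n) + pB * (b * n) + 0 * C.card = (a + b * pB) * n := by ring
        rw [h2]
        have h3 : a + b * pB ≤ (1 / 2 - η / 8) * pB := by
          have h4 : ((1 / 2 - η / 8) - b) * pB = a + η / 8 := by
            rw [hpB, mul_div_cancel₀ _ hpos.ne']
          nlinarith
        calc (a + b * pB) * n ≤ ((1 / 2 - η / 8) * pB) * n :=
              mul_le_mul_of_nonneg_right h3 hnpos.le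
          _ = _ := by ring
      · by_cases huC : u ∈ C
        · simp only [huA, huB, huC, if_true, if_false]
          have h1 := hgen (fun v => H.Adj u v) 1 0 0 zero_le_one le_rfl le_rfl hsupp'
            (fun _ _ _ => le_refl _) (by
              intro v huv hvB
              exact absurd hvB (Finset.disjoint_left.mp hAB (hC u v huv huC))) (by
              intro v huv hvC
              exact absurd hvC (Finset.disjoint_left.mp hAC (hC u v huv huC)))
          refine h1.trans ?_
          rw [hnA]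
          have h2 : 1 * (a * n) + 0 * (B.card : ℝ) + 0 * C.card = a * n := by ring
          rw [h2]
          have h3 : (1 / 2 - η / 8) * pC = a + η / 8 := by
            rw [hpC, mul_div_cancel₀ _ hl.ne']
          calc a * n ≤ (a + η / 8) * n := by nlinarith
            _ = ((1 / 2 - η / 8) * pC) * n := by rw [h3]
            _ = _ := by ring
        · have h1 : (∑ v, if H.Adj u v then (if v ∈ A then (1 : ℝ) else if v ∈ B then pB else
            if v ∈ C then pC else 1) else 0) = 0 := by
            apply Finset.sum_eq_zero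
            intro v _
            rw [if_neg]
            intro huv
            rcases hsupp u v huv with h | h | h
            · exact huA h
            · exact huB h
            · exact huC h
          rw [h1]
          simp only [huA, huB, huC, if_false]
          positivity

/-- Hall's theorem with deficiency. -/
theorem hall_def {ι : Type*} [Fintype ι] (R : SimpleGraph ι) (K : Finset ι) (d : ℕ)
    (h : ∀ X ⊆ K, X.card ≤ (Finset.univ.filter fun j => ∃ i ∈ X, R.Adj i j).card + d) :
    ∃ (S : Finset ι) (φ : ι → ι), S ⊆ K ∧ Set.InjOn φ S ∧ (∀ u ∈ S, R.Adj u (φ u)) ∧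
      K.card ≤ S.card + d := by
  let t : K → Finset (ι ⊕ Fin d) := fun u =>
    (Finset.univ.filter fun j => R.Adj u j).map ⟨Sum.inl, Sum.inl_injective⟩ ∪
      (Finset.univ : Finset (Fin d)).map ⟨Sum.inr, Sum.inr_injective⟩
  have hall := (Finset.all_card_le_biUnion_card_iff_exists_injective t).mp (by
    intro s
    rcases s.eq_empty_or_nonempty with rfl | hs
    · simp
    · have h1 := h (s.map ⟨Subtype.val, Subtype.val_injective⟩) (by
        intro x hx
        rw [Finset.mem_map] at hx
        obtain ⟨a, _, rfl⟩ := hx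
        exact a.2)
      rw [Finset.card_map] at h1
      refine h1.trans ?_
      have hsub : ((Finset.univ.filter fun j => ∃ i ∈ s.map ⟨Subtype.val, Subtype.val_injective⟩,
          R.Adj i j).map ⟨Sum.inl, Sum.inl_injective⟩ ∪
          (Finset.univ : Finset (Fin d)).map ⟨Sum.inr, Sum.inr_injective⟩ : Finset (ι ⊕ Fin d))
          ⊆ s.biUnion t := by
        intro x hx
        rw [Finset.mem_union, Finset.mem_map, Finset.mem_map] at hx
        rw [Finset.mem_biUnion]
        rcases hx with ⟨j, hj, rfl⟩ | ⟨j, _, rfl⟩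
        · rw [Finset.mem_filter] at hj
          obtain ⟨_, i, hi, hij⟩ := hj
          rw [Finset.mem_map] at hi
          obtain ⟨u, hu, rfl⟩ := hi
          refine ⟨u, hu, ?_⟩
          rw [Finset.mem_union, Finset.mem_map]
          left
          exact ⟨j, by rw [Finset.mem_filter]; exact ⟨Finset.mem_univ _, hij⟩, rfl⟩
        · obtain ⟨u, hu⟩ := hs
          refine ⟨u, hu, ?_⟩
          rw [Finset.mem_union, Finset.mem_map, Finset.mem_map]
          right
          exact ⟨j, Finset.mem_univ _, rfl⟩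
      have h2 := Finset.card_le_card hsub
      rw [Finset.card_union_of_disjoint, Finset.card_map, Finset.card_map, Finset.card_univ,
        Fintype.card_fin] at h2
      · exact h2
      · rw [Finset.disjoint_left]
        intro x hx hx'
        rw [Finset.mem_map] at hx hx'
        obtain ⟨_, _, rfl⟩ := hx
        obtain ⟨_, _, h⟩ := hx'
        simp at h)
  obtain ⟨f, hf, hft⟩ := hall
  set S1 : Finset K := Finset.univ.filter fun u => ∃ j, f u = Sum.inl j with hS1
  refine ⟨S1.map ⟨Subtype.val, Subtype.val_injective⟩,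
    fun u => if h : ∃ h : u ∈ K, ∃ j, f ⟨u, h⟩ = Sum.inl j then h.choose_spec.choose else u,
    ?_, ?_, ?_, ?_⟩
  · intro u hu
    rw [Finset.mem_map] at hu
    obtain ⟨a, _, rfl⟩ := hu
    exact a.2
  · intro u hu v hv huv
    rw [Finset.mem_coe, Finset.mem_map] at hu hv
    obtain ⟨u', hu', rfl⟩ := hu
    obtain ⟨v', hv', rfl⟩ := hv
    rw [hS1, Finset.mem_filter] at hu' hv'
    have hu : ∃ h : (u' : ι) ∈ K, ∃ j, f ⟨u', h⟩ = Sum.inl j := ⟨u'.2, hu'.2⟩
    have hv : ∃ h : (v' : ι) ∈ K, ∃ j, f ⟨v', h⟩ = Sum.inl j := ⟨v'.2, hv'.2⟩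
    simp only [Function.Embedding.coeFn_mk, dif_pos hu, dif_pos hv] at huv
    have h1 := hu.choose_spec.choose_spec
    have h2 := hv.choose_spec.choose_spec
    rw [← huv, ← h1] at h2
    have h3 := hf h2
    exact (congrArg Subtype.val h3).symm
  · intro u hu
    rw [Finset.mem_map] at hu
    obtain ⟨u', hu', rfl⟩ := hu
    rw [hS1, Finset.mem_filter] at hu'
    have hu : ∃ h : (u' : ι) ∈ K, ∃ j, f ⟨u', h⟩ = Sum.inl j := ⟨u'.2, hu'.2⟩
    simp only [Function.Embedding.coeFn_mk, dif_pos hu]
    have h1 := hu.choose_spec.choose_spec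
    have h2 := hft ⟨u', hu.choose⟩
    rw [h1, Finset.mem_union, Finset.mem_map, Finset.mem_map] at h2
    rcases h2 with ⟨j, hj, hj'⟩ | ⟨j, _, hj'⟩
    · have : j = hu.choose_spec.choose := by simpa using hj'
      rw [Finset.mem_filter, this] at hj
      exact hj.2
    · simp at hj'
  · rw [Finset.card_map]
    have h1 : ((Finset.univ : Finset K).filter fun u => ¬ ∃ j, f u = Sum.inl j).card
        ≤ ((Finset.univ : Finset (Fin d)).map ⟨Sum.inr, Sum.inr_injective⟩ :
          Finset (ι ⊕ Fin d)).card := by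
      apply Finset.card_le_card_of_injOn f
      · intro u hu
        rw [Finset.mem_coe, Finset.mem_filter] at hu
        rw [Finset.mem_coe, Finset.mem_map]
        rcases hfu : f u with j | j
        · exact absurd ⟨j, hfu⟩ hu.2
        · exact ⟨j, Finset.mem_univ _, rfl⟩
      · exact hf.injOn
    rw [Finset.card_map, Finset.card_univ, Fintype.card_fin] at h1
    have h2 := Finset.card_filter_add_card_filter_not (s := (Finset.univ : Finset K))
      (fun u => ∃ j, f u = Sum.inl j)
    rw [Finset.card_univ, Fintype.card_coe] at h2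
    rw [hS1]
    omega

end Pool.Agent.H47.Odd
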