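import Pool.Agent.H47.Odd.Spec

set_option autoImplicit false

namespace Pool.Agent.H47.Odd

open Finset Classical

variable {α : Type*} [Fintype α]

theorem cut_nat (a w : ℕ) (h : a ≤ w) : a * (w - a) ≤ w ^ 2 / 4 := by
  rw [Nat.le_div_iff_mul_le (by norm_num)]
  obtain ⟨b, rfl⟩ := Nat.exists_eq_add_of_le h
  rw [Nat.add_sub_cancel_left]
  zify
  nlinarith [sq_nonneg ((a : ℤ) - b)]

/-- Triangle-free graphs supported on `W`. -/
theorem TF (H : SimpleGraph α) (W : Finset α) (hW : ∀ u v, H.Adj u v → u ∈ W)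
    (htf : ∀ u v w, H.Adj u v → H.Adj v w → ¬ H.Adj u w) (y : α → ℝ) :
    Q H y ≤ √((W.card ^ 2 / 4 : ℕ) : ℝ) * N y := by
  by_contra hcon
  push Not at hcon
  have hN : 0 < N y := by
    rcases (N_nonneg y).lt_or_eq with h | h
    · exact h
    · exfalso
      have h1 := abs_Q_le H y
      rw [← h, mul_zero] at h1
      rw [← h, mul_zero] at hcon
      have := le_abs_self (Q H y)
      linarith
  obtain ⟨v, hv⟩ := exists_walk2 H y (Q H y / N y) (by
    apply div_nonneg _ hN.le
    exact le_trans (mul_nonneg (Real.sqrt_nonneg _) hN.le) hcon.le) hN (by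
    rw [div_mul_cancel₀ _ hN.ne'])
  have hL : √((W.card ^ 2 / 4 : ℕ) : ℝ) < Q H y / N y := by
    rwa [lt_div_iff₀ hN]
  have hL2 : ((W.card ^ 2 / 4 : ℕ) : ℝ) < (Q H y / N y) ^ 2 := by
    have h1 := Real.sq_sqrt (Nat.cast_nonneg (α := ℝ) (W.card ^ 2 / 4 : ℕ))
    have h2 := Real.sqrt_nonneg ((W.card ^ 2 / 4 : ℕ) : ℝ)
    nlinarith
  have hdv : H.degree v ≤ W.card := by
    rw [← SimpleGraph.card_neighborFinset_eq_degree]
    apply Finset.card_le_card
    intro u hu
    rw [SimpleGraph.mem_neighborFinset] at hu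
    exact hW u v hu.symm
  have hsum : (∑ u, if H.Adj v u then (H.degree u : ℝ) else 0)
      ≤ ((H.degree v * (W.card - H.degree v) : ℕ) : ℝ) := by
    have h1 : (∑ u, if H.Adj v u then (H.degree u : ℝ) else 0)
        = ((∑ u ∈ H.neighborFinset v, H.degree u : ℕ) : ℝ) := by
      rw [Finset.sum_ite, Finset.sum_const_zero, add_zero]
      push_cast
      apply Finset.sum_congr
      · ext u; simp
      · intro _ _; rfl
    rw [h1, Nat.cast_le]
    calc ∑ u ∈ H.neighborFinset v, H.degree u
        ≤ ∑ u ∈ H.neighborFinset v, (W.card - H.degree v) := by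
          apply Finset.sum_le_sum
          intro u hu
          rw [SimpleGraph.mem_neighborFinset] at hu
          have hdis : Disjoint (H.neighborFinset u) (H.neighborFinset v) := by
            rw [Finset.disjoint_left]
            intro w hw1 hw2
            rw [SimpleGraph.mem_neighborFinset] at hw1 hw2
            exact htf v u w hu hw1 hw2
          have hsub : H.neighborFinset u ∪ H.neighborFinset v ⊆ W := by
            intro w hw
            rw [Finset.mem_union, SimpleGraph.mem_neighborFinset,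
              SimpleGraph.mem_neighborFinset] at hw
            rcases hw with hw | hw
            · exact hW w u hw.symm
            · exact hW w v hw.symm
          have h2 := Finset.card_le_card hsub
          rw [Finset.card_union_of_disjoint hdis, SimpleGraph.card_neighborFinset_eq_degree,
            SimpleGraph.card_neighborFinset_eq_degree] at h2
          omega
      _ = _ := by
        rw [Finset.sum_const, SimpleGraph.card_neighborFinset_eq_degree, smul_eq_mul]
  have h3 : ((H.degree v * (W.card - H.degree v) : ℕ) : ℝ) ≤ ((W.card ^ 2 / 4 : ℕ) : ℝ) := by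
    rw [Nat.cast_le]
    exact cut_nat _ _ hdv
  linarith

/-- Removing few edges changes the quadratic form only a little. -/
theorem perturb (G G' : SimpleGraph α) (hle : G' ≤ G) (y : α → ℝ) :
    Q G y ≤ Q G' y +
      √(((Finset.univ.filter fun p : α × α => G.Adj p.1 p.2 ∧ ¬ G'.Adj p.1 p.2).card : ℕ) : ℝ)
        * N y := by
  set S := Finset.univ.filter fun p : α × α => G.Adj p.1 p.2 ∧ ¬ G'.Adj p.1 p.2 with hS
  have h1 : Q G y - Q G' y = ∑ p ∈ S, y p.1 * y p.2 := by
    unfold Q
    rw [← Finset.sum_sub_distrib, hS, Finset.sum_filter, ← Finset.univ_product_univ,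
      Finset.sum_product]
    apply Finset.sum_congr rfl; intro u _
    rw [← Finset.sum_sub_distrib]
    apply Finset.sum_congr rfl; intro v _
    by_cases h : G'.Adj u v
    · have h2 := hle h
      simp [h, h2]
    · by_cases h2 : G.Adj u v <;> simp [h, h2]
  have h2 : (∑ p ∈ S, y p.1 * y p.2) ^ 2 ≤ (S.card : ℝ) * (N y) ^ 2 := by
    have h3 := Finset.sum_mul_sq_le_sq_mul_sq S (fun _ => (1 : ℝ)) (fun p => y p.1 * y p.2)
    simp only [one_mul, one_pow, Finset.sum_const, nsmul_eq_mul, mul_one] at h3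
    refine h3.trans ?_
    apply mul_le_mul_of_nonneg_left _ (Nat.cast_nonneg _)
    calc ∑ p ∈ S, (y p.1 * y p.2) ^ 2 ≤ ∑ p : α × α, (y p.1 * y p.2) ^ 2 := by
          apply Finset.sum_le_sum_of_subset_of_nonneg (Finset.subset_univ _)
          intro _ _ _; positivity
      _ = (N y) ^ 2 := by
          unfold N
          rw [← Finset.univ_product_univ, Finset.sum_product, sq, Finset.sum_mul_sum]
          apply Finset.sum_congr rfl; intro u _
          apply Finset.sum_congr rfl; intro v _
          ring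
  have h3 : ∑ p ∈ S, y p.1 * y p.2 ≤ √(S.card : ℝ) * N y := by
    refine (abs_le_of_sq_le_sq' ?_ (mul_nonneg (Real.sqrt_nonneg _) (N_nonneg y))).2
    rw [mul_pow, Real.sq_sqrt (Nat.cast_nonneg _)]; exact h2
  linarith

/-- A cyclic sequence of distinct vertices gives a cycle. -/
theorem cyc_of_fun {α : Type*} (G : SimpleGraph α) (l : ℕ) (hl : 3 ≤ l) (x : ℕ → α)
    (hinj : ∀ i < l, ∀ j < l, x i = x j → i = j)
    (hadj : ∀ i, i + 1 < l → G.Adj (x i) (x (i + 1))) (hclose : G.Adj (x (l - 1)) (x 0)) :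
    SimpleGraph.IsContained (SimpleGraph.cycleGraph l) G := by
  obtain ⟨m, rfl⟩ : ∃ m, l = m + 2 := ⟨l - 2, by omega⟩
  have key : ∀ u v : Fin (m + 2), u - v = 1 → G.Adj (x u) (x v) := by
    intro u v h
    have h2 : u = v + 1 := by rw [sub_eq_iff_eq_add] at h; rw [h]; exact add_comm 1 v
    subst h2
    by_cases hv : (v : ℕ) + 1 < m + 2
    · have h3 : ((v + 1 : Fin (m + 2)) : ℕ) = (v : ℕ) + 1 := by
        rw [Fin.val_add_one_of_lt']
        exact hv
      rw [h3]
      exact (hadj v hv).symm
    · have h4 : (v : ℕ) = m + 1 := by have := v.isLt; omega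
      have h5 : v = Fin.last (m + 1) := Fin.ext h4
      subst h5
      rw [Fin.last_add_one]
      simp only [Fin.val_zero, Fin.val_last]
      have h6 : m + 2 - 1 = m + 1 := by omega
      rw [h6] at hclose
      exact hclose.symm
  refine ⟨⟨⟨fun i => x i, ?_⟩, ?_⟩⟩
  · intro u v h
    rw [SimpleGraph.cycleGraph_adj] at h
    rcases h with h | h
    · exact key u v h
    · exact (key v u h).symm
  · intro u v h
    exact Fin.ext (hinj u u.isLt v v.isLt h)

/-- Conversely a contained cycle gives a cyclic sequence of distinct vertices. -/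
theorem fun_of_cyc {α : Type*} (G : SimpleGraph α) (l : ℕ) (hl : 3 ≤ l)
    (h : SimpleGraph.IsContained (SimpleGraph.cycleGraph l) G) :
    ∃ x : Fin l → α, Function.Injective x ∧ ∀ (i : ℕ) (hi : i < l),
      G.Adj (x ⟨i, hi⟩) (x ⟨(i + 1) % l, Nat.mod_lt _ (by omega)⟩) := by
  obtain ⟨f⟩ := h
  refine ⟨f, f.injective, ?_⟩
  intro i hi
  apply f.toHom.map_adj
  obtain ⟨m, rfl⟩ : ∃ m, l = m + 2 := ⟨l - 2, by omega⟩
  rw [SimpleGraph.cycleGraph_adj]
  right
  by_cases h2 : i + 1 < m + 2
  · rw [sub_eq_iff_eq_add]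
    apply Fin.ext
    rw [Fin.val_add]
    simp [Nat.mod_eq_of_lt h2, add_comm]
  · have h3 : i = m + 1 := by omega
    subst h3
    rw [sub_eq_iff_eq_add]
    apply Fin.ext
    rw [Fin.val_add]
    simp [add_comm]

end Pool.Agent.H47.Odd
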