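import Pool.Agent.H47.Odd.Basic

set_option autoImplicit false

namespace Pool.Agent.H47.Odd

open Finset Classical

variable {α ι : Type*}

/-- Data of a cluster system: disjoint clusters `V i`, and a symmetric irreflexive relation `R`
with a one-sided regularity property. -/
structure Clusters (G : SimpleGraph α) (R : SimpleGraph ι) (V : ι → Finset α) (e δ : ℝ) : Prop where
  dis : ∀ i j, i ≠ j → Disjoint (V i) (V j)
  reg : ∀ i j, R.Adj i j → ∀ B ⊆ V j, e * (V j).card ≤ B.card →
    (((V i).filter fun x => ((B.filter fun b => G.Adj x b).card : ℝ) < δ * B.card).card : ℝ)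
      < e * (V i).card

theorem embed {G : SimpleGraph α} {R : SimpleGraph ι} {V : ι → Finset α} {e δ η : ℝ}
    (hcl : Clusters G R V e δ) (he : 0 < e) (hδ : 0 < δ) (hη : 0 < η) (heδ : e ≤ δ * η)
    (he2 : 2 * e ≤ 1) (L : ℕ) (hL : 3 ≤ L) (w : ℕ → ι) (hw : ∀ t < L, R.Adj (w t) (w (t + 1)))
    (hwL : w L = w 0)
    (hsize : ∀ t < L, δ * η * (V (w t)).card + e * (V (w t)).card + 1 ≤ δ * (V (w t)).card)
    (hvis : ∀ t < L, (((range L).filter fun i => w i = w t).card : ℝ) + e * (V (w t)).card + 1
      + η * (V (w t)).card ≤ (V (w t)).card) :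
    SimpleGraph.IsContained (SimpleGraph.cycleGraph L) G := by
  have hpos : ∀ t < L, (1 : ℝ) ≤ (V (w t)).card := by
    intro t ht
    have h1 := hvis t ht
    have h2 : (0 : ℝ) ≤ (V (w t)).card := Nat.cast_nonneg _
    have h3 : (0 : ℝ) ≤ (((range L).filter fun i => w i = w t).card : ℝ) := Nat.cast_nonneg _
    have h4 : 0 ≤ e * ((V (w t)).card : ℝ) := by positivity
    have h5 : 0 ≤ η * ((V (w t)).card : ℝ) := by positivity
    linarith
  -- picking a typical vertex from a candidate set
  have pick : ∀ i j, R.Adj i j → ∀ B ⊆ V j, e * (V j).card ≤ B.card →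
      ∀ X ⊆ V i, e * (V i).card ≤ X.card →
      ∃ x ∈ X, δ * B.card ≤ ((B.filter fun b => G.Adj x b).card : ℝ) := by
    intro i j hij B hB hBc X hX hXc
    by_contra hcon
    push Not at hcon
    have h1 := hcl.reg i j hij B hB hBc
    have hsub : X ⊆ ((V i).filter fun x => ((B.filter fun b => G.Adj x b).card : ℝ) < δ * B.card) := by
      intro x hx
      rw [Finset.mem_filter]
      exact ⟨hX hx, hcon x hx⟩
    have h2 : (X.card : ℝ) ≤ _ := Nat.cast_le.mpr (Finset.card_le_card hsub)
    linarith
  have hRlast : R.Adj (w 0) (w (L - 1)) := by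
    have := hw (L - 1) (by omega)
    rw [Nat.sub_add_cancel (by omega), hwL] at this
    exact this.symm
  have hR01 : R.Adj (w 0) (w 1) := hw 0 (by omega)
  -- the first vertex
  have hx0 : ∃ x ∈ V (w 0), δ * (V (w 1)).card ≤ (((V (w 1)).filter fun b => G.Adj x b).card : ℝ) ∧
      δ * (V (w (L - 1))).card ≤ (((V (w (L - 1))).filter fun b => G.Adj x b).card : ℝ) := by
    by_contra hcon
    push Not at hcon
    have h1 := hcl.reg (w 0) (w 1) hR01 (V (w 1)) (Finset.Subset.refl _) (by
      have : (0 : ℝ) ≤ (V (w 1)).card := Nat.cast_nonneg _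
      nlinarith)
    have h2 := hcl.reg (w 0) (w (L - 1)) hRlast (V (w (L - 1))) (Finset.Subset.refl _) (by
      have : (0 : ℝ) ≤ (V (w (L - 1))).card := Nat.cast_nonneg _
      nlinarith)
    have hsub : V (w 0) ⊆ ((V (w 0)).filter fun x =>
        (((V (w 1)).filter fun b => G.Adj x b).card : ℝ) < δ * (V (w 1)).card) ∪
        ((V (w 0)).filter fun x =>
        (((V (w (L - 1))).filter fun b => G.Adj x b).card : ℝ) < δ * (V (w (L - 1))).card) := by
      intro x hx
      rw [Finset.mem_union, Finset.mem_filter, Finset.mem_filter]
      by_cases h3 : δ * (V (w 1)).card ≤ (((V (w 1)).filter fun b => G.Adj x b).card : ℝ)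
      · exact Or.inr ⟨hx, hcon x hx h3⟩
      · exact Or.inl ⟨hx, not_le.mp h3⟩
    have h3 : ((V (w 0)).card : ℝ) ≤ _ := Nat.cast_le.mpr (Finset.card_le_card hsub)
    have h4 := Finset.card_union_le ((V (w 0)).filter fun x =>
        (((V (w 1)).filter fun b => G.Adj x b).card : ℝ) < δ * (V (w 1)).card)
        ((V (w 0)).filter fun x =>
        (((V (w (L - 1))).filter fun b => G.Adj x b).card : ℝ) < δ * (V (w (L - 1))).card)
    have h5 := hpos 0 (by omega)
    have h6 : ((((V (w 0)).filter fun x =>
        (((V (w 1)).filter fun b => G.Adj x b).card : ℝ) < δ * (V (w 1)).card) ∪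
        ((V (w 0)).filter fun x =>
        (((V (w (L - 1))).filter fun b => G.Adj x b).card : ℝ) < δ * (V (w (L - 1))).card)).card : ℝ)
        ≤ (((V (w 0)).filter fun x =>
        (((V (w 1)).filter fun b => G.Adj x b).card : ℝ) < δ * (V (w 1)).card).card : ℝ) +
        (((V (w 0)).filter fun x =>
        (((V (w (L - 1))).filter fun b => G.Adj x b).card : ℝ) < δ * (V (w (L - 1))).card).card : ℝ) := by
      exact_mod_cast h4
    nlinarith
  obtain ⟨x0, hx0V, hx01, hx0L⟩ := hx0
  -- the reserved set
  obtain ⟨T, hTsub, hTcard⟩ := Finset.exists_subset_card_eq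
    (s := (V (w (L - 1))).filter fun b => G.Adj x0 b) (n := ⌈e * ((V (w (L - 1))).card : ℝ)⌉₊) (by
      have h1 := Nat.ceil_lt_add_one (a := e * ((V (w (L - 1))).card : ℝ)) (by positivity)
      have h2 := hsize (L - 1) (by omega)
      have h3 : 0 ≤ δ * η * ((V (w (L - 1))).card : ℝ) := by positivity
      have h4 : ((⌈e * ((V (w (L - 1))).card : ℝ)⌉₊ : ℕ) : ℝ) ≤
        (((V (w (L - 1))).filter fun b => G.Adj x0 b).card : ℝ) := by linarith
      exact_mod_cast h4)
  have hTge : e * ((V (w (L - 1))).card : ℝ) ≤ T.card := by
    rw [hTcard]; exact Nat.le_ceil _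
  have hTle : (T.card : ℝ) ≤ e * ((V (w (L - 1))).card : ℝ) + 1 := by
    rw [hTcard]; exact (Nat.ceil_lt_add_one (by positivity)).le
  have hTV : T ⊆ V (w (L - 1)) := hTsub.trans (Finset.filter_subset _ _)
  have hTadj : ∀ b ∈ T, G.Adj x0 b := fun b hb => (Finset.mem_filter.mp (hTsub hb)).2
  have hTpos : 0 < T.card := by
    have h1 := hpos (L - 1) (by omega)
    have : (0 : ℝ) < T.card := by
      refine lt_of_lt_of_le ?_ hTge
      positivity
    exact_mod_cast this
  -- T intersects V j only if j = w (L-1)
  have hTinter : ∀ t < L, ((V (w t) ∩ T).card : ℝ) ≤ e * (V (w t)).card + 1 := by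
    intro t ht
    by_cases h : w t = w (L - 1)
    · rw [h]
      refine le_trans ?_ hTle
      exact_mod_cast Finset.card_le_card Finset.inter_subset_right
    · have : V (w t) ∩ T = ∅ := by
        rw [← Finset.disjoint_iff_inter_eq_empty]
        exact Finset.disjoint_of_subset_right hTV (hcl.dis _ _ h)
      rw [this]
      simp only [Finset.card_empty, Nat.cast_zero]
      positivity
  -- greedy
  have greedy : ∀ t, t + 3 ≤ L → ∃ x : ℕ → α, x 0 = x0 ∧ (∀ i ≤ t, x i ∈ V (w i)) ∧
      (∀ i ≤ t, ∀ j ≤ t, x i = x j → i = j) ∧ (∀ i < t, G.Adj (x i) (x (i + 1))) ∧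
      (∀ i ≤ t, x i ∉ T) ∧
      δ * η * (V (w (t + 1))).card ≤
        ((((V (w (t + 1)) \ T) \ ((range (t + 1)).image x)).filter fun b => G.Adj (x t) b).card : ℝ) := by
    intro t
    induction t with
    | zero =>
      intro _
      have hx0T : x0 ∉ T := by
        intro h
        exact G.loopless.irrefl x0 (hTadj x0 h)
      refine ⟨fun _ => x0, rfl, ?_, ?_, ?_, ?_, ?_⟩
      · intro i hi
        obtain rfl : i = 0 := by omega
        exact hx0V
      · intro i hi j hj _; omega
      · intro i hi; omega
      · intro i _; exact hx0T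
      · -- count
        have hne : w 0 ≠ w 1 := hR01.ne
        have h1 : ((V (w 1)).filter fun b => G.Adj x0 b) ⊆
            (((V (w (0 + 1)) \ T) \ ((range (0 + 1)).image fun _ => x0)).filter fun b => G.Adj x0 b)
            ∪ (V (w 1) ∩ T) := by
          intro b hb
          rw [Finset.mem_filter] at hb
          rw [Finset.mem_union]
          by_cases hbT : b ∈ T
          · right; rw [Finset.mem_inter]; exact ⟨hb.1, hbT⟩
          · left
            rw [Finset.mem_filter, Finset.mem_sdiff, Finset.mem_sdiff]
            refine ⟨⟨⟨hb.1, hbT⟩, ?_⟩, hb.2⟩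
            intro hb'
            rw [Finset.mem_image] at hb'
            obtain ⟨_, _, rfl⟩ := hb'
            exact G.loopless.irrefl _ hb.2
        have h2 := Finset.card_le_card h1
        have h3 := Finset.card_union_le (((V (w (0 + 1)) \ T) \
          ((range (0 + 1)).image fun _ => x0)).filter fun b => G.Adj x0 b) (V (w 1) ∩ T)
        have h4 := hTinter 1 (by omega)
        have h5 := hsize 1 (by omega)
        have h6 : (((V (w 1)).filter fun b => G.Adj x0 b).card : ℝ) ≤
          ((((V (w (0 + 1)) \ T) \ ((range (0 + 1)).image fun _ => x0)).filter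
            fun b => G.Adj x0 b).card : ℝ) + ((V (w 1) ∩ T).card : ℝ) := by
          exact_mod_cast h2.trans h3
        simp only [zero_add] at h6 ⊢
        linarith
    | succ t ih =>
      intro ht
      obtain ⟨x, hx0', hxV, hxinj, hxadj, hxT, hxc⟩ := ih (by omega)
      -- available set
      set Av : Finset α := (V (w (t + 2)) \ T) \ ((range (t + 1)).image x) with hAv
      have hAvc : η * (V (w (t + 2))).card ≤ (Av.card : ℝ) := by
        have h1 : V (w (t + 2)) ⊆ Av ∪ (V (w (t + 2)) ∩ T) ∪
            ((((range L).filter fun i => w i = w (t + 2))).image x) := by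
          intro b hb
          rw [Finset.mem_union, Finset.mem_union]
          by_cases hbT : b ∈ T
          · left; right; rw [Finset.mem_inter]; exact ⟨hb, hbT⟩
          · by_cases hbx : b ∈ (range (t + 1)).image x
            · right
              rw [Finset.mem_image] at hbx ⊢
              obtain ⟨i, hi, rfl⟩ := hbx
              rw [Finset.mem_range] at hi
              refine ⟨i, ?_, rfl⟩
              rw [Finset.mem_filter, Finset.mem_range]
              refine ⟨by omega, ?_⟩
              by_contra hne
              exact Finset.disjoint_left.mp (hcl.dis _ _ hne) (hxV i (by omega)) hb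
            · left; left
              rw [hAv, Finset.mem_sdiff, Finset.mem_sdiff]
              exact ⟨⟨hb, hbT⟩, hbx⟩
        have h2 := Finset.card_le_card h1
        have h3 := Finset.card_union_le (Av ∪ (V (w (t + 2)) ∩ T))
          ((((range L).filter fun i => w i = w (t + 2))).image x)
        have h4 := Finset.card_union_le Av (V (w (t + 2)) ∩ T)
        have h5 : ((((range L).filter fun i => w i = w (t + 2))).image x).card ≤
          ((range L).filter fun i => w i = w (t + 2)).card := Finset.card_image_le
        have h6 := hTinter (t + 2) (by omega)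
        have h7 := hvis (t + 2) (by omega)
        have h8 : ((V (w (t + 2))).card : ℝ) ≤ (Av.card : ℝ) + ((V (w (t + 2)) ∩ T).card : ℝ)
            + (((range L).filter fun i => w i = w (t + 2)).card : ℝ) := by
          exact_mod_cast h2.trans (h3.trans (Nat.add_le_add h4 h5))
        linarith
      have hAvV : Av ⊆ V (w (t + 2)) := Finset.sdiff_subset.trans Finset.sdiff_subset
      have hRt : R.Adj (w (t + 1)) (w (t + 2)) := hw (t + 1) (by omega)
      have hcard1 : (0 : ℝ) ≤ (V (w (t + 1))).card := Nat.cast_nonneg _
      have hcard2 : (0 : ℝ) ≤ (V (w (t + 2))).card := Nat.cast_nonneg _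
      have hη1 : η ≤ 1 := by
        have h7 := hvis 0 (by omega)
        have h8 := hpos 0 (by omega)
        have h9 : (0 : ℝ) ≤ (((range L).filter fun i => w i = w 0).card : ℝ) := Nat.cast_nonneg _
        have h10 : 0 ≤ e * ((V (w 0)).card : ℝ) := by positivity
        by_contra hcon
        push Not at hcon
        nlinarith
      have hδ1 : e ≤ η := by
        -- from sizes: δ ≤ 1 is not needed, use e ≤ δ η and δ ≤ 1
        have hδle : δ ≤ 1 := by
          have h8 := hpos 1 (by omega)
          have h9 : (((V (w 1)).filter fun b => G.Adj x0 b).card : ℝ) ≤ (V (w 1)).card := by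
            exact_mod_cast Finset.card_filter_le _ _
          by_contra hcon
          push Not at hcon
          nlinarith
        nlinarith
      obtain ⟨z, hz, hzc⟩ := pick (w (t + 1)) (w (t + 2)) hRt Av hAvV (by
          refine le_trans ?_ hAvc
          exact mul_le_mul_of_nonneg_right hδ1 hcard2)
        ((((V (w (t + 1)) \ T) \ ((range (t + 1)).image x)).filter fun b => G.Adj (x t) b))
        (by
          refine (Finset.filter_subset _ _).trans ?_
          exact Finset.sdiff_subset.trans Finset.sdiff_subset)
        (by
          refine le_trans ?_ hxc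
          exact mul_le_mul_of_nonneg_right heδ hcard1)
      rw [Finset.mem_filter, Finset.mem_sdiff, Finset.mem_sdiff] at hz
      obtain ⟨⟨⟨hzV, hzT⟩, hzx⟩, hzadj⟩ := hz
      have hzne : ∀ i ≤ t, x i ≠ z := by
        intro i hi h
        apply hzx
        rw [Finset.mem_image]
        exact ⟨i, Finset.mem_range.mpr (by omega), h⟩
      refine ⟨fun i => if i ≤ t then x i else z, ?_, ?_, ?_, ?_, ?_, ?_⟩
      · simp [hx0']
      · intro i hi
        by_cases h : i ≤ t
        · simp only [h, if_true]; exact hxV i h
        · have : i = t + 1 := by omega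
          subst this
          simp only [h, if_false]; exact hzV
      · intro i hi j hj hij
        by_cases h : i ≤ t
        · by_cases h' : j ≤ t
          · simp only [h, h', if_true] at hij
            exact hxinj i h j h' hij
          · simp only [h, h', if_true, if_false] at hij
            exact absurd hij (hzne i h)
        · by_cases h' : j ≤ t
          · simp only [h, h', if_true, if_false] at hij
            exact absurd hij.symm (hzne j h')
          · omega
      · intro i hi
        by_cases h : i + 1 ≤ t
        · have h' : i ≤ t := by omega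
          simp only [h, h', if_true]
          exact hxadj i (by omega)
        · have h' : i = t := by omega
          subst h'
          simp only [le_refl, if_true, h, if_false]
          exact hzadj
      · intro i hi
        by_cases h : i ≤ t
        · simp only [h, if_true]; exact hxT i h
        · simp only [h, if_false]; exact hzT
      · have hset : (((V (w (t + 1 + 1)) \ T) \ ((range (t + 1 + 1)).image
            fun i => if i ≤ t then x i else z))) = Av := by
          rw [hAv]
          ext b
          rw [Finset.mem_sdiff, Finset.mem_sdiff, Finset.mem_sdiff, Finset.mem_sdiff,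
            Finset.mem_image, Finset.mem_image]
          constructor
          · rintro ⟨⟨h1, h2⟩, h3⟩
            refine ⟨⟨h1, h2⟩, ?_⟩
            rintro ⟨i, hi, rfl⟩
            rw [Finset.mem_range] at hi
            apply h3
            refine ⟨i, Finset.mem_range.mpr (by omega), ?_⟩
            have : i ≤ t := by omega
            simp [this]
          · rintro ⟨⟨h1, h2⟩, h3⟩
            refine ⟨⟨h1, h2⟩, ?_⟩
            rintro ⟨i, hi, hib⟩
            rw [Finset.mem_range] at hi
            by_cases h : i ≤ t
            · simp only [h, if_true] at hib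
              exact h3 ⟨i, Finset.mem_range.mpr (by omega), hib⟩
            · simp only [h, if_false] at hib
              subst hib
              exact Finset.disjoint_left.mp (hcl.dis _ _ hRt.ne) hzV h1
        rw [hset]
        have hnt : ¬ (t + 1 ≤ t) := by omega
        simp only [hnt, if_false]
        refine le_trans ?_ hzc
        have h1 : δ * η * ((V (w (t + 1 + 1))).card : ℝ) = δ * (η * ((V (w (t + 2))).card : ℝ)) := by
          rw [mul_assoc]
        rw [h1]
        exact mul_le_mul_of_nonneg_left hAvc hδ.le
  obtain ⟨x, hx0', hxV, hxinj, hxadj, hxT, hxc⟩ := greedy (L - 3) (by omega)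
  obtain ⟨m, rfl⟩ : ∃ m, L = m + 3 := ⟨L - 3, by omega⟩
  have e1 : m + 3 - 3 = m := by omega
  have e2 : m + 3 - 1 = m + 2 := by omega
  rw [e1] at hxV hxinj hxadj hxT hxc
  rw [e2] at hTV hTge hTle
  have hRm : R.Adj (w (m + 1)) (w (m + 2)) := hw (m + 1) (by omega)
  have hcard1 : (0 : ℝ) ≤ (V (w (m + 1))).card := Nat.cast_nonneg _
  obtain ⟨z, hz, hzc⟩ := pick (w (m + 1)) (w (m + 2)) hRm T hTV hTge
    ((((V (w (m + 1)) \ T) \ ((range (m + 1)).image x)).filter fun b => G.Adj (x m) b))
    (by
      refine (Finset.filter_subset _ _).trans ?_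
      exact Finset.sdiff_subset.trans Finset.sdiff_subset)
    (by
      refine le_trans ?_ hxc
      exact mul_le_mul_of_nonneg_right heδ hcard1)
  rw [Finset.mem_filter, Finset.mem_sdiff, Finset.mem_sdiff] at hz
  obtain ⟨⟨⟨hzV, hzT⟩, hzx⟩, hzadj⟩ := hz
  have hne : (T.filter fun b => G.Adj z b).Nonempty := by
    rw [← Finset.card_pos]
    have h1 : (0 : ℝ) < ((T.filter fun b => G.Adj z b).card : ℝ) := by
      refine lt_of_lt_of_le ?_ hzc
      have : (0 : ℝ) < T.card := by exact_mod_cast hTpos
      positivity
    exact_mod_cast h1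
  obtain ⟨q, hq⟩ := hne
  rw [Finset.mem_filter] at hq
  obtain ⟨hqT, hqz⟩ := hq
  have hzne : ∀ i ≤ m, x i ≠ z := by
    intro i hi h
    apply hzx
    rw [Finset.mem_image]
    exact ⟨i, Finset.mem_range.mpr (by omega), h⟩
  have hqne : ∀ i ≤ m, x i ≠ q := by
    intro i hi h
    exact hxT i hi (h ▸ hqT)
  have hzq : z ≠ q := fun h => hzT (h ▸ hqT)
  apply cyc_of_fun G (m + 3) (by omega)
    (fun i => if i ≤ m then x i else if i = m + 1 then z else q)
  · intro i hi j hj hij
    by_cases h : i ≤ m
    · by_cases h' : j ≤ m
      · simp only [h, h', if_true] at hij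
        exact hxinj i h j h' hij
      · by_cases h2 : j = m + 1
        · simp only [h, h', h2, if_true, if_false] at hij
          have : ¬ (m + 1 ≤ m) := by omega
          simp only [this, if_false] at hij
          exact absurd hij (hzne i h)
        · simp only [h, h', h2, if_true, if_false] at hij
          exact absurd hij (hqne i h)
    · by_cases h1 : i = m + 1
      · subst h1
        by_cases h' : j ≤ m
        · simp only [h, h', if_true, if_false] at hij
          exact absurd hij.symm (hzne j h')
        · by_cases h2 : j = m + 1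
          · exact h2.symm
          · simp only [h, h', h2, if_true, if_false] at hij
            exact absurd hij hzq
      · by_cases h' : j ≤ m
        · simp only [h, h1, h', if_true, if_false] at hij
          exact absurd hij.symm (hqne j h')
        · by_cases h2 : j = m + 1
          · subst h2
            simp only [h, h1, h', if_true, if_false] at hij
            exact absurd hij.symm hzq
          · omega
  · intro i hi
    by_cases h : i + 1 ≤ m
    · have h' : i ≤ m := by omega
      simp only [h, h', if_true]
      exact hxadj i (by omega)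
    · by_cases h2 : i = m
      · subst h2
        simp only [le_refl, if_true, h, if_false]
        exact hzadj
      · have h3 : i = m + 1 := by omega
        subst h3
        have h4 : ¬ (m + 1 ≤ m) := by omega
        have h5 : ¬ (m + 1 + 1 ≤ m) := by omega
        have h6 : ¬ (m + 1 + 1 = m + 1) := by omega
        simp only [h4, h5, h6, if_true, if_false]
        exact hqz
  · have h4 : ¬ (m + 3 - 1 ≤ m) := by omega
    have h5 : ¬ (m + 3 - 1 = m + 1) := by omega
    simp only [h4, h5, if_false, Nat.zero_le, if_true]
    rw [hx0']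
    exact (hTadj q hqT).symm

end Pool.Agent.H47.Odd
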