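import Pool.Agent.H47.Odd.Basic

set_option autoImplicit false

namespace Pool.Agent.H47.Odd

open Finset Classical SimpleGraph

/-- join of a clique on the first `s` vertices with an independent set -/
def joinGraph (n s : ℕ) : SimpleGraph (Fin n) where
  Adj u v := u ≠ v ∧ (u.val < s ∨ v.val < s)
  symm := ⟨fun _ _ h => ⟨h.1.symm, h.2.symm⟩⟩
  loopless := ⟨fun _ h => h.1 rfl⟩

theorem joinGraph_free (n s : ℕ) (hs : 1 ≤ s) :
    ¬ SimpleGraph.IsContained (SimpleGraph.cycleGraph (2 * s + 1)) (joinGraph n s) := by
  intro h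
  obtain ⟨x, hx, hadj⟩ := fun_of_cyc _ _ (by omega) h
  set T := Finset.univ.filter fun i : Fin (2 * s + 1) => (x i).val < s with hT
  have h1 : T.card ≤ s := by
    have : T.card ≤ (Finset.range s).card := by
      apply Finset.card_le_card_of_injOn (fun i => (x i).val)
      · intro i hi
        rw [Finset.mem_coe, hT, Finset.mem_filter] at hi
        rw [Finset.mem_coe, Finset.mem_range]
        exact hi.2
      · intro i _ j _ hij
        exact hx (Fin.ext hij)
    simpa using this
  have h2 : (Finset.univ.filter fun i : Fin (2 * s + 1) => ¬ (x i).val < s).card ≤ T.card := by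
    apply Finset.card_le_card_of_injOn
      (fun i : Fin (2 * s + 1) => (⟨(i.val + 1) % (2 * s + 1), Nat.mod_lt _ (by omega)⟩ : Fin (2 * s + 1)))
    · intro i hi
      rw [Finset.mem_coe, Finset.mem_filter] at hi
      rw [Finset.mem_coe, hT, Finset.mem_filter]
      refine ⟨Finset.mem_univ _, ?_⟩
      have h3 := hadj i.val i.isLt
      rcases h3.2 with h4 | h4
      · exact absurd h4 hi.2
      · exact h4
    · intro i _ j _ hij
      have h5 : (i.val + 1) % (2 * s + 1) = (j.val + 1) % (2 * s + 1) := congrArg Fin.val hij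
      apply Fin.ext
      have hi := i.isLt
      have hj := j.isLt
      rcases Nat.lt_or_ge (i.val + 1) (2 * s + 1) with h6 | h6
      · rcases Nat.lt_or_ge (j.val + 1) (2 * s + 1) with h7 | h7
        · rw [Nat.mod_eq_of_lt h6, Nat.mod_eq_of_lt h7] at h5; omega
        · have : j.val + 1 = 2 * s + 1 := by omega
          rw [this, Nat.mod_self, Nat.mod_eq_of_lt h6] at h5; omega
      · have h8 : i.val + 1 = 2 * s + 1 := by omega
        rcases Nat.lt_or_ge (j.val + 1) (2 * s + 1) with h7 | h7
        · rw [h8, Nat.mod_self, Nat.mod_eq_of_lt h7] at h5; omega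
        · omega
  have h3 : T.card + (Finset.univ.filter fun i : Fin (2 * s + 1) => ¬ (x i).val < s).card
      = 2 * s + 1 := by
    rw [hT, Finset.card_filter_add_card_filter_not, Finset.card_univ, Fintype.card_fin]
  omega

theorem card_lt (n s : ℕ) (h : s ≤ n) :
    (Finset.univ.filter fun i : Fin n => i.val < s).card = s := by
  rw [Fin.card_filter_val_lt]
  omega

theorem joinGraph_mu (n s : ℕ) (hs : 1 ≤ s) (hsn : s < n)
    (hineq : (n : ℝ) ^ 2 - 6 * s * n + 2 * n + 4 * s ^ 2 < 0) :
    (n : ℝ) / 2 < mu (joinGraph n s) := by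
  have hne : Nonempty (Fin n) := ⟨⟨0, by omega⟩⟩
  set x : Fin n → ℝ := fun u => if u.val < s then (n : ℝ) else 2 * s with hx
  have hnr : (0 : ℝ) < n := by
    have : 0 < n := by omega
    exact_mod_cast this
  have hsr : (0 : ℝ) < s := by exact_mod_cast hs
  have hsnr : (s : ℝ) < n := by exact_mod_cast hsn
  have hc1 := card_lt n s hsn.le
  have hc2 : (Finset.univ.filter fun i : Fin n => ¬ i.val < s).card = n - s := by
    have h3 := Finset.card_filter_add_card_filter_not (s := (Finset.univ : Finset (Fin n)))
      (fun i => i.val < s)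
    rw [Finset.card_univ, Fintype.card_fin] at h3
    omega
  have hsum : ∀ p q : ℝ, (∑ u : Fin n, if u.val < s then p else q) = s * p + ((n : ℝ) - s) * q := by
    intro p q
    rw [Finset.sum_ite, Finset.sum_const, Finset.sum_const, hc1, hc2, nsmul_eq_mul, nsmul_eq_mul,
      Nat.cast_sub hsn.le]
  have hN : N x = s * (n : ℝ) ^ 2 + ((n : ℝ) - s) * (2 * s) ^ 2 := by
    unfold N
    rw [← hsum]
    apply Finset.sum_congr rfl
    intro u _
    rw [hx]
    simp only
    split_ifs <;> rfl
  have hQ : Q (joinGraph n s) x = s * (n * (s * n + ((n : ℝ) - s) * (2 * s) - n))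
      + ((n : ℝ) - s) * (2 * s * (s * n)) := by
    unfold Q
    rw [← hsum]
    apply Finset.sum_congr rfl
    intro u _
    by_cases hu : u.val < s
    · have h1 : ∀ v, (if (joinGraph n s).Adj u v then x u * x v else 0)
          = (n * x v) - (if v = u then n * x v else 0) := by
        intro v
        have hadj : (joinGraph n s).Adj u v ↔ v ≠ u := by
          constructor
          · intro h; exact h.1.symm
          · intro h; exact ⟨h.symm, Or.inl hu⟩
        have hxu : x u = n := by rw [hx]; simp only [hu, if_true]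
        rw [hxu]
        by_cases hvu : v = u
        · have h9 : ¬ (joinGraph n s).Adj u v := fun h => (hadj.mp h) hvu
          rw [if_neg h9, if_pos hvu]; ring
        · rw [if_pos (hadj.mpr hvu), if_neg hvu]; ring
      rw [Finset.sum_congr rfl (fun v _ => h1 v), Finset.sum_sub_distrib, ← Finset.mul_sum]
      have h2 : (∑ v, x v) = s * n + ((n : ℝ) - s) * (2 * s) := by rw [hx]; exact hsum _ _
      rw [h2, Finset.sum_ite_eq' Finset.univ u]
      have hxu : x u = n := by rw [hx]; simp only [hu, if_true]
      simp only [Finset.mem_univ, if_true, hu, hxu]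
      ring
    · have h1 : ∀ v : Fin n, (if (joinGraph n s).Adj u v then x u * x v else 0)
          = (if v.val < s then 2 * (s : ℝ) * n else 0) := by
        intro v
        have hadj : (joinGraph n s).Adj u v ↔ v.val < s := by
          constructor
          · intro h; exact h.2.resolve_left hu
          · intro h; exact ⟨fun h' => hu (h' ▸ h), Or.inr h⟩
        rw [hadj]
        have hxu : x u = 2 * s := by rw [hx]; simp only [hu, if_false]
        rw [hxu]
        split_ifs with h2
        · have hxv : x v = n := by rw [hx]; simp only [h2, if_true]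
          rw [hxv]
        · rfl
      rw [Finset.sum_congr rfl (fun v _ => h1 v), hsum]
      simp only [hu, if_false]
      ring
  have hle := Q_le (joinGraph n s) x
  have hNpos : 0 < N x := by
    rw [hN]
    have : 0 < (n : ℝ) - s := by linarith
    positivity
  by_contra hcon
  push Not at hcon
  have h1 : Q (joinGraph n s) x ≤ n / 2 * N x :=
    hle.trans (mul_le_mul_of_nonneg_right hcon hNpos.le)
  rw [hQ, hN] at h1
  have h2 : s * (n * (s * n + ((n : ℝ) - s) * (2 * s) - n)) + ((n : ℝ) - s) * (2 * s * (s * n))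
      - n / 2 * (s * (n : ℝ) ^ 2 + ((n : ℝ) - s) * (2 * s) ^ 2)
      = (s * n / 2) * (-((n : ℝ) ^ 2 - 6 * s * n + 2 * n + 4 * s ^ 2)) := by ring
  have h3 : 0 < (s * n / 2) * (-((n : ℝ) ^ 2 - 6 * s * n + 2 * n + 4 * s ^ 2)) := by
    apply mul_pos (by positivity); linarith
  linarith

/-- The balanced complete bipartite graph. -/
def turan2 (n : ℕ) : SimpleGraph (Fin n) where
  Adj u v := (u.val < n / 2 ∧ ¬ v.val < n / 2) ∨ (v.val < n / 2 ∧ ¬ u.val < n / 2)
  symm := ⟨fun _ _ h => h.symm⟩
  loopless := ⟨fun _ h => by rcases h with h | h <;> exact h.2 h.1⟩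

theorem turan2_free (n l : ℕ) (hodd : Odd l) (hl : 3 ≤ l) :
    ¬ SimpleGraph.IsContained (SimpleGraph.cycleGraph l) (turan2 n) := by
  intro h
  obtain ⟨x, hx, hadj⟩ := fun_of_cyc _ _ hl h
  have key : ∀ i (hi : i < l), ((x ⟨i, hi⟩).val < n / 2 ↔
      ((x ⟨0, by omega⟩).val < n / 2 ↔ Even i)) := by
    intro i
    induction i with
    | zero => intro hi; simp
    | succ i ih =>
      intro hi
      have h1 := ih (by omega)
      have h2 := hadj i (by omega)
      have h3 : (⟨(i + 1) % l, Nat.mod_lt _ (by omega)⟩ : Fin l) = ⟨i + 1, hi⟩ := by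
        apply Fin.ext
        exact Nat.mod_eq_of_lt hi
      rw [h3] at h2
      have h4 : (x ⟨i + 1, hi⟩).val < n / 2 ↔ ¬ (x ⟨i, by omega⟩).val < n / 2 := by
        rcases h2 with h2 | h2
        · exact ⟨fun h => absurd h h2.2, fun h => absurd h2.1 h⟩
        · exact ⟨fun _ => h2.2, fun _ => h2.1⟩
      rw [h4, h1, Nat.even_add_one]
      tauto
  have h1 := key (l - 1) (by omega)
  have h2 := hadj (l - 1) (by omega)
  have h3 : (⟨(l - 1 + 1) % l, Nat.mod_lt _ (by omega)⟩ : Fin l) = ⟨0, by omega⟩ := by
    apply Fin.ext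
    change (l - 1 + 1) % l = 0
    rw [Nat.sub_add_cancel (by omega), Nat.mod_self]
  rw [h3] at h2
  have heven : Even (l - 1) := by
    obtain ⟨k, hk⟩ := hodd
    exact ⟨k, by omega⟩
  have h4 : (x ⟨l - 1, by omega⟩).val < n / 2 ↔ (x ⟨0, by omega⟩).val < n / 2 := by
    rw [h1]; simp [heven]
  rcases h2 with h2 | h2
  · exact h2.2 (h4.mp h2.1)
  · exact h2.2 (h4.mpr h2.1)

theorem half_mul (n : ℕ) : (n / 2) * (n - n / 2) = n ^ 2 / 4 := by
  rcases Nat.even_or_odd' n with ⟨k, rfl | rfl⟩
  · have h1 : 2 * k / 2 = k := by omega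
    rw [h1]
    have h2 : 2 * k - k = k := by omega
    rw [h2]
    have h3 : (2 * k) ^ 2 = 4 * (k * k) := by ring
    rw [h3, Nat.mul_div_cancel_left _ (by norm_num)]
  · have h1 : (2 * k + 1) / 2 = k := by omega
    rw [h1]
    have h2 : 2 * k + 1 - k = k + 1 := by omega
    rw [h2]
    have h3 : (2 * k + 1) ^ 2 = 4 * (k * (k + 1)) + 1 := by ring
    rw [h3]
    omega

theorem turan2_mu (n : ℕ) (hn : 2 ≤ n) : √((n ^ 2 / 4 : ℕ) : ℝ) ≤ mu (turan2 n) := by
  have hne : Nonempty (Fin n) := ⟨⟨0, by omega⟩⟩
  set a : ℕ := n / 2 with ha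
  set b : ℕ := n - n / 2 with hb
  have hab : a * b = n ^ 2 / 4 := half_mul n
  have han : a ≤ n := by omega
  have hc1 := card_lt n a han
  have hc2 : (Finset.univ.filter fun i : Fin n => ¬ i.val < a).card = b := by
    have h3 := Finset.card_filter_add_card_filter_not (s := (Finset.univ : Finset (Fin n)))
      (fun i => i.val < a)
    rw [Finset.card_univ, Fintype.card_fin] at h3
    omega
  have hsum : ∀ p q : ℝ, (∑ u : Fin n, if u.val < a then p else q) = a * p + b * q := by
    intro p q
    rw [Finset.sum_ite, Finset.sum_const, Finset.sum_const, hc1, hc2, nsmul_eq_mul, nsmul_eq_mul]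
  have hapos : (0 : ℝ) < a := by
    have : 0 < a := by omega
    exact_mod_cast this
  have hbpos : (0 : ℝ) < b := by
    have : 0 < b := by omega
    exact_mod_cast this
  set x : Fin n → ℝ := fun u => if u.val < a then √b else √a with hx
  have hN : N x = 2 * (a * b) := by
    unfold N
    have h1 : ∀ u : Fin n, x u ^ 2 = if u.val < a then (b : ℝ) else a := by
      intro u
      rw [hx]
      simp only
      split_ifs
      · exact Real.sq_sqrt hbpos.le
      · exact Real.sq_sqrt hapos.le
    rw [Finset.sum_congr rfl (fun u _ => h1 u), hsum]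
    ring
  have hQ : Q (turan2 n) x = 2 * (a * b) * (√a * √b) := by
    unfold Q
    have h1 : ∀ u : Fin n, (∑ v, if (turan2 n).Adj u v then x u * x v else 0)
        = if u.val < a then b * (√a * √b) else a * (√a * √b) := by
      intro u
      by_cases hu : u.val < a
      · have h2 : ∀ v : Fin n, (if (turan2 n).Adj u v then x u * x v else 0)
            = if v.val < a then 0 else √a * √b := by
          intro v
          have hadj : (turan2 n).Adj u v ↔ ¬ v.val < a := by
            constructor
            · rintro (h | h)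
              · exact h.2
              · exact absurd hu h.2
            · intro h; exact Or.inl ⟨hu, h⟩
          rw [hadj, hx]
          simp only [hu, if_true]
          split_ifs
          · rfl
          · ring
        rw [Finset.sum_congr rfl (fun v _ => h2 v), hsum]
        simp only [hu, if_true]
        ring
      · have h2 : ∀ v : Fin n, (if (turan2 n).Adj u v then x u * x v else 0)
            = if v.val < a then √a * √b else 0 := by
          intro v
          have hadj : (turan2 n).Adj u v ↔ v.val < a := by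
            constructor
            · rintro (h | h)
              · exact absurd h.1 hu
              · exact h.1
            · intro h; exact Or.inr ⟨h, hu⟩
          rw [hadj, hx]
          simp only [hu, if_false]
          split_ifs <;> rfl
        rw [Finset.sum_congr rfl (fun v _ => h2 v), hsum]
        simp only [hu, if_false]
        ring
    rw [Finset.sum_congr rfl (fun u _ => h1 u), hsum]
    ring
  have hle := Q_le (turan2 n) x
  rw [hQ, hN] at hle
  have h1 : √((n ^ 2 / 4 : ℕ) : ℝ) = √a * √b := by
    rw [← hab, Nat.cast_mul, Real.sqrt_mul hapos.le]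
  rw [h1]
  have h2 : 0 < 2 * ((a : ℝ) * b) := by positivity
  have h3 : 2 * ((a : ℝ) * b) * (√a * √b) ≤ 2 * ((a : ℝ) * b) * mu (turan2 n) := by linarith
  exact le_of_mul_le_mul_left h3 h2

theorem mu_le_card (n : ℕ) (hn : 1 ≤ n) (G : SimpleGraph (Fin n)) : mu G ≤ n := by
  have hne : Nonempty (Fin n) := ⟨⟨0, by omega⟩⟩
  obtain ⟨y, _, hy1, hy2⟩ := exists_vec G
  have h1 := abs_Q_le G y
  rw [hy1, mul_one, Fintype.card_fin] at h1
  exact hy2.trans ((le_abs_self _).trans h1)

end Pool.Agent.H47.Odd
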