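import Pool.Agent.H47.Odd.Reg

set_option autoImplicit false

namespace Pool.Agent.H47.Odd

open Finset Classical SimpleGraph

variable {α : Type*} [Fintype α]

theorem cluster_abc {P : Finpartition (univ : Finset α)}
    (hP : P.IsEquipartition) (R : SimpleGraph {s // s ∈ P.parts}) (H : SimpleGraph α)
    (c : R.ConnectedComponent)
    (hH : ∀ u v, H.Adj u v → ∃ U V : {s // s ∈ P.parts}, R.Adj U V ∧
      u ∈ (U : Finset α) ∧ v ∈ (V : Finset α) ∧ R.connectedComponentMk U = c)
    (y : α → ℝ) (hN : 0 < N y) (κ η1 : ℝ) (hη : 0 < η1) (hη' : η1 ≤ 1 / 10) (hκ : κ < η1 / 16)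
    (hn : 0 < Fintype.card α)
    (hQ : ((1 / 2 - κ) * Fintype.card α) * N y ≤ Q H y)
    (hk : 2 * (P.parts.card : ℝ) ≤ η1 * Fintype.card α)
    (A C : Finset {s // s ∈ P.parts}) (hdis : Disjoint A C)
    (hAC : ∀ i ∈ C, ∀ j, R.Adj i j → j ∈ A)
    (hAK : ∀ i ∈ A, R.connectedComponentMk i = c)
    (hCK : ∀ i ∈ C, R.connectedComponentMk i = c) :
    (c0 - η1) * P.parts.card ≤ (A.card : ℝ) +
      ((Finset.univ.filter fun i => R.connectedComponentMk i = c).card : ℝ)
      - C.card := by
  set K := Finset.univ.filter fun i => R.connectedComponentMk i = c with hK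
  by_contra hcon
  push Not at hcon
  set B := K \ (A ∪ C) with hB
  have hACK : A ∪ C ⊆ K := by
    intro i hi
    rw [hK, Finset.mem_filter]
    refine ⟨Finset.mem_univ _, ?_⟩
    rcases Finset.mem_union.mp hi with h | h
    · exact hAK i h
    · exact hCK i h
  have hcards : B.card + (A.card + C.card) = K.card := by
    rw [← Finset.card_union_of_disjoint hdis]
    exact Finset.card_sdiff_add_card_eq_card hACK
  set A' := A.biUnion fun U => (U : Finset α) with hA'
  set B' := B.biUnion fun U => (U : Finset α) with hB'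
  set C' := C.biUnion fun U => (U : Finset α) with hC'
  have hdisj : ∀ S T : Finset {s // s ∈ P.parts}, Disjoint S T →
      Disjoint (S.biUnion fun U => (U : Finset α)) (T.biUnion fun U => (U : Finset α)) := by
    intro S T hST
    rw [Finset.disjoint_left]
    intro x hx hx'
    rw [Finset.mem_biUnion] at hx hx'
    obtain ⟨U, hU, hxU⟩ := hx
    obtain ⟨V, hV, hxV⟩ := hx'
    have h1 := P.eq_of_mem_parts U.2 V.2 hxU hxV
    have h2 : U = V := Subtype.ext h1
    subst h2
    exact Finset.disjoint_left.mp hST hU hV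
  have hAB : Disjoint A B := by
    rw [hB]
    exact (Finset.disjoint_sdiff (s := A ∪ C) (t := K)).mono_left Finset.subset_union_left
  have hBC : Disjoint B C := by
    rw [hB]
    exact ((Finset.disjoint_sdiff (s := A ∪ C) (t := K)).mono_left Finset.subset_union_right).symm
  have hcard_le : ∀ S : Finset {s // s ∈ P.parts},
      ((S.biUnion fun U => (U : Finset α)).card : ℝ) ≤
        (S.card : ℝ) * ((Fintype.card α / P.parts.card : ℕ) + 1) := by
    intro S
    have h1 : (S.biUnion fun U => (U : Finset α)).card ≤ S.card * (Fintype.card α / P.parts.card + 1) := by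
      apply Finset.card_biUnion_le_card_mul
      intro U _
      have := hP.card_part_le_average_add_one U.2
      rwa [Finset.card_univ] at this
    exact_mod_cast h1
  have hkpos : 0 < P.parts.card := by
    have : (univ : Finset α).Nonempty := by
      rw [← Finset.card_pos, Finset.card_univ]; exact hn
    exact Finset.card_pos.mpr (P.parts_nonempty this.ne_empty)
  have hc := c0_bounds
  have hmk : (P.parts.card : ℝ) * (((Fintype.card α / P.parts.card : ℕ) : ℝ) + 1)
      ≤ Fintype.card α + P.parts.card := by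
    have h1 : P.parts.card * (Fintype.card α / P.parts.card) ≤ Fintype.card α :=
      Nat.mul_div_le _ _
    have h2 : (P.parts.card : ℝ) * ((Fintype.card α / P.parts.card : ℕ) : ℝ) ≤ Fintype.card α := by
      exact_mod_cast h1
    linarith
  have hspec := abc_spec H A' B' C' (hdisj A B hAB) (hdisj A C hdis) (hdisj B C hBC) (by
      intro u v huv
      obtain ⟨U, V, -, hu, -, hU⟩ := hH u v huv
      have hUK : U ∈ K := by rw [hK, Finset.mem_filter]; exact ⟨Finset.mem_univ _, hU⟩
      by_cases h1 : U ∈ A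
      · left; rw [hA', Finset.mem_biUnion]; exact ⟨U, h1, hu⟩
      · by_cases h2 : U ∈ C
        · right; right; rw [hC', Finset.mem_biUnion]; exact ⟨U, h2, hu⟩
        · right; left; rw [hB', Finset.mem_biUnion]
          refine ⟨U, ?_, hu⟩
          rw [hB, Finset.mem_sdiff, Finset.mem_union]
          exact ⟨hUK, by tauto⟩) (by
      intro u v huv huC
      rw [hC', Finset.mem_biUnion] at huC
      obtain ⟨W, hW, huW⟩ := huC
      obtain ⟨U, V, hUV, hu, hv, hU⟩ := hH u v huv
      have h1 : W = U := Subtype.ext (P.eq_of_mem_parts W.2 U.2 huW hu)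
      subst h1
      rw [hA', Finset.mem_biUnion]
      exact ⟨V, hAC W hW V hUV, hv⟩) (η1 / 2) (by linarith) (by linarith) hn (by
      have h1 := hcard_le A
      have h2 := hcard_le B
      have h3 : 2 * (A.card : ℝ) + B.card < (c0 - η1) * P.parts.card := by
        have h4 : (B.card : ℝ) + (A.card + C.card) = K.card := by exact_mod_cast hcards
        linarith
      have h5 : 0 ≤ ((Fintype.card α / P.parts.card : ℕ) : ℝ) + 1 := by positivity
      have h6 : (2 * (A.card : ℝ) + B.card) * (((Fintype.card α / P.parts.card : ℕ) : ℝ) + 1)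
          ≤ (c0 - η1) * P.parts.card * (((Fintype.card α / P.parts.card : ℕ) : ℝ) + 1) :=
        mul_le_mul_of_nonneg_right h3.le h5
      have h7 : (c0 - η1) * P.parts.card * (((Fintype.card α / P.parts.card : ℕ) : ℝ) + 1)
          ≤ (c0 - η1) * (Fintype.card α + P.parts.card) := by
        rw [mul_assoc]
        apply mul_le_mul_of_nonneg_left hmk
        linarith
      have h8 : (c0 - η1) * (P.parts.card : ℝ) ≤ P.parts.card := by
        have : (0 : ℝ) ≤ P.parts.card := Nat.cast_nonneg _
        nlinarith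
      nlinarith) y
  have hNn : 0 < (Fintype.card α : ℝ) * N y := by
    have : (0 : ℝ) < Fintype.card α := by exact_mod_cast hn
    positivity
  nlinarith

/-- The regularity part of the argument: long odd cycles from a component containing a triangle. -/
theorem long_cycle {G : SimpleGraph α} {P : Finpartition (univ : Finset α)}
    (hP : P.IsEquipartition) {ε1 d η0 : ℝ} (hη0 : 0 < η0) (hη0' : η0 ≤ 1 / 10) (hd : 0 < d)
    (hd1 : d ≤ 1) (hε1 : ε1 = d * (η0 / 12) / 4) (R : SimpleGraph {s // s ∈ P.parts})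
    (hcl : Clusters G R (fun U => (U : Finset α)) ε1 (d - ε1)) (H : SimpleGraph α)
    (c : R.ConnectedComponent)
    (hH : ∀ u v, H.Adj u v → ∃ U V : {s // s ∈ P.parts}, R.Adj U V ∧
      u ∈ (U : Finset α) ∧ v ∈ (V : Finset α) ∧ R.connectedComponentMk U = c)
    (y : α → ℝ) (hN : 0 < N y) (κ : ℝ) (hκ : κ < η0 / 32)
    (M X : ℕ) (hM : P.parts.card ≤ M) (hX1 : 2 * (M : ℝ) * (M + 1) + 4 ≤ (η0 / 12) * X)
    (hX2 : 4 ≤ d * X) (hX3 : 12 ≤ η0 * X)
    (hn : M * (X + 1) ≤ Fintype.card α) (hn0 : 0 < Fintype.card α)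
    (hQ : ((1 / 2 - κ) * Fintype.card α) * N y ≤ Q H y)
    (htri : ∃ u v w, H.Adj u v ∧ H.Adj v w ∧ H.Adj w u)
    (l : ℕ) (hodd : Odd l) (hl3 : 3 ≤ l) (hl : (l : ℝ) ≤ (c0 - η0) * Fintype.card α) :
    SimpleGraph.IsContained (SimpleGraph.cycleGraph l) G := by
  set n := Fintype.card α with hndef
  set k := P.parts.card with hkdef
  set m := n / k with hmdef
  have hkpos : 0 < k := by
    have : (univ : Finset α).Nonempty := by
      rw [← Finset.card_pos, Finset.card_univ]; exact hn0
    exact Finset.card_pos.mpr (P.parts_nonempty this.ne_empty)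
  have hkM : k ≤ M := hM
  have hXm : X ≤ m := by
    rw [hmdef, Nat.le_div_iff_mul_le hkpos]
    calc X * k ≤ (X + 1) * M := Nat.mul_le_mul (Nat.le_succ _) hkM
      _ = M * (X + 1) := by ring
      _ ≤ n := hn
  have hXmr : (X : ℝ) ≤ m := by exact_mod_cast hXm
  have hkMr : (k : ℝ) ≤ M := by exact_mod_cast hkM
  have hkr : (1 : ℝ) ≤ k := by exact_mod_cast hkpos
  have hXr : (0 : ℝ) ≤ X := Nat.cast_nonneg _
  have hkn : (k : ℝ) * X ≤ n := by
    have : k * X ≤ n := by
      calc k * X ≤ M * (X + 1) := Nat.mul_le_mul hkM (Nat.le_succ _)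
        _ ≤ n := hn
    exact_mod_cast this
  have hc := c0_bounds
  have hε1pos : 0 < ε1 := by rw [hε1]; positivity
  -- the triangle in the cluster graph
  obtain ⟨u, v, w, huv, hvw, hwu⟩ := htri
  obtain ⟨a, b, hab, hua, hvb, hac⟩ := hH u v huv
  obtain ⟨b', cc, hbc, hvb', hwc, _⟩ := hH v w hvw
  obtain ⟨cc', a', hca, hwc', hua', _⟩ := hH w u hwu
  have hb : b' = b := Subtype.ext (P.eq_of_mem_parts b'.2 b.2 hvb' hvb)
  have hcc : cc' = cc := Subtype.ext (P.eq_of_mem_parts cc'.2 cc.2 hwc' hwc)
  have ha : a' = a := Subtype.ext (P.eq_of_mem_parts a'.2 a.2 hua' hua)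
  subst hb hcc ha
  -- sizes
  have hpart : ∀ i : {s // s ∈ P.parts}, (m : ℝ) ≤ ((i : Finset α).card : ℝ) := by
    intro i
    have := hP.average_le_card_part i.2
    rw [Finset.card_univ] at this
    exact_mod_cast this
  -- reduce to a closed walk
  have hwalk : ∀ (r : {s // s ∈ P.parts}) (p : R.Walk r r), p.length = l →
      (∀ j, (cnt p j : ℝ) ≤ 2 * (M : ℝ) * (M + 1) + 3 + (1 - 3 * (η0 / 12)) * m) →
      SimpleGraph.IsContained (SimpleGraph.cycleGraph l) G := by
    intro r p hpl hcnt
    have hmpos : (0 : ℝ) ≤ m := Nat.cast_nonneg _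
    have := embed_walk (η := η0 / 12) hcl hε1pos (by rw [hε1]; nlinarith) (by positivity)
      (by rw [hε1]; nlinarith [mul_pos hd hη0]) (by rw [hε1]; nlinarith [mul_pos hd hη0]) p (by omega) (by
        intro i
        have h1 := hpart i
        have h2 : 0 ≤ ((i : Finset α).card : ℝ) := Nat.cast_nonneg _
        have h3 : 4 ≤ d * ((i : Finset α).card : ℝ) := by
          refine hX2.trans ?_
          apply mul_le_mul_of_nonneg_left _ hd.le
          linarith
        rw [hε1]
        have h4 : 0 ≤ d * ((i : Finset α).card : ℝ) := by positivity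
        have e : (d - d * (η0 / 12) / 4) * ((i : Finset α).card : ℝ)
          - ((d - d * (η0 / 12) / 4) * (η0 / 12) * ((i : Finset α).card : ℝ)
            + d * (η0 / 12) / 4 * ((i : Finset α).card : ℝ) + 1)
          = (1 - η0 / 12 / 4 - (1 - η0 / 12 / 4) * (η0 / 12) - (η0 / 12) / 4)
            * (d * ((i : Finset α).card : ℝ)) - 1 := by ring
        have h5 : (1 / 2 : ℝ) ≤ 1 - η0 / 12 / 4 - (1 - η0 / 12 / 4) * (η0 / 12) - (η0 / 12) / 4 := by
          nlinarith
        nlinarith) (by
        intro i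
        have h1 := hpart i
        have h2 := hcnt i
        have h3 : 2 * (M : ℝ) * (M + 1) + 4 ≤ (η0 / 12) * m := by
          refine hX1.trans ?_
          apply mul_le_mul_of_nonneg_left hXmr
          positivity
        have h4 : ε1 ≤ η0 / 12 := by rw [hε1]; nlinarith
        have h5 : (0 : ℝ) ≤ ((i : Finset α).card : ℝ) := Nat.cast_nonneg _
        have h6 : (1 - ε1 - η0 / 12) * (m : ℝ) ≤ (1 - ε1 - η0 / 12) * ((i : Finset α).card : ℝ) := by
          apply mul_le_mul_of_nonneg_left h1
          linarith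
        have h7 : ε1 * m ≤ η0 / 12 * m := mul_le_mul_of_nonneg_right h4 hmpos
        nlinarith)
    rw [hpl] at this
    exact this
  have hMr : (0 : ℝ) ≤ M := Nat.cast_nonneg _
  have hmpos : (0 : ℝ) ≤ m := Nat.cast_nonneg _
  by_cases hsmall : l < 2 * k * (k + 1) + 3
  · -- short cycles: walk around the triangle
    obtain ⟨p, hp⟩ := triangle_walks hab hbc hca l hodd hl3
    apply hwalk _ p hp
    intro j
    have h1 : (cnt p j : ℝ) ≤ p.length := by exact_mod_cast cnt_le p j
    rw [hp] at h1
    have h2 : (l : ℝ) ≤ 2 * k * (k + 1) + 3 := by exact_mod_cast hsmall.le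
    have h3 : 2 * (k : ℝ) * (k + 1) ≤ 2 * (M : ℝ) * (M + 1) := by nlinarith
    have h4 : 0 ≤ (1 - 3 * (η0 / 12)) * (m : ℝ) := mul_nonneg (by linarith) hmpos
    linarith
  · push Not at hsmall
    set K := Finset.univ.filter fun i => R.connectedComponentMk i = c with hK
    have habc := cluster_abc hP R H c hH y hN κ (η0 / 2) (by linarith) (by linarith) (by linarith)
      hn0 hQ (by
        have h1 : 2 * (k : ℝ) ≤ η0 / 2 * n := by nlinarith
        exact h1)
    -- the number of clusters to cover
    set s := ⌈(c0 - η0 / 2) * (k : ℝ)⌉₊ with hs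
    have hsk : s ≤ K.card := by
      rw [hs, Nat.ceil_le]
      have := habc ∅ ∅ (Finset.disjoint_empty_left _) (by simp) (by simp) (by simp)
      rw [Finset.card_empty, Nat.cast_zero, zero_add, sub_zero] at this
      exact this
    obtain ⟨S, φ, hSK, hφ, hφR, hScard⟩ := hall_def R K (K.card - s) (by
      intro Y hY
      set NY := (Finset.univ.filter fun j => ∃ i ∈ Y, R.Adj i j) with hNY
      have hNYK : ∀ j ∈ NY, R.connectedComponentMk j = c := by
        intro j hj
        rw [hNY, Finset.mem_filter] at hj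
        obtain ⟨_, i, hi, hij⟩ := hj
        have h1 := hY hi
        rw [hK, Finset.mem_filter] at h1
        rw [← h1.2]
        exact (ConnectedComponent.sound hij.reachable).symm
      have h1 := habc (NY \ Y) (Y \ NY) (by
          rw [Finset.disjoint_left]
          intro x hx hx'
          rw [Finset.mem_sdiff] at hx hx'
          exact hx.2 hx'.1) (by
          intro i hi j hij
          rw [Finset.mem_sdiff] at hi ⊢
          refine ⟨?_, ?_⟩
          · rw [hNY, Finset.mem_filter]
            exact ⟨Finset.mem_univ _, i, hi.1, hij⟩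
          · intro hj
            apply hi.2
            rw [hNY, Finset.mem_filter]
            exact ⟨Finset.mem_univ _, j, hj, hij.symm⟩) (by
          intro i hi
          exact hNYK i (Finset.mem_sdiff.mp hi).1) (by
          intro i hi
          have h2 := hY (Finset.mem_sdiff.mp hi).1
          rw [hK, Finset.mem_filter] at h2
          exact h2.2)
      have h2 : ((NY \ Y).card : ℝ) - (Y \ NY).card = (NY.card : ℝ) - Y.card := by
        have e1 := Finset.card_sdiff_add_card_inter NY Y
        have e2 := Finset.card_sdiff_add_card_inter Y NY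
        rw [Finset.inter_comm] at e2
        have e1' : ((NY \ Y).card : ℝ) + (NY ∩ Y).card = NY.card := by exact_mod_cast e1
        have e2' : ((Y \ NY).card : ℝ) + (NY ∩ Y).card = Y.card := by exact_mod_cast e2
        linarith
      have h3 : (c0 - η0 / 2) * (k : ℝ) ≤ ((K.card + NY.card - Y.card : ℤ) : ℝ) := by
        push_cast
        have h4 : (c0 - η0 / 2) * (k : ℝ) ≤ ((NY \ Y).card : ℝ) + K.card - (Y \ NY).card := h1
        linarith
      have h5 : (s : ℤ) ≤ K.card + NY.card - Y.card := by
        rw [hs, Int.natCast_ceil_eq_ceil (by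
          apply mul_nonneg _ (Nat.cast_nonneg _); linarith), Int.ceil_le]
        exact h3
      omega)
    have hSs : s ≤ S.card := by omega
    have hSk : S.card ≤ k := by
      have h1 : S.card ≤ Fintype.card {s // s ∈ P.parts} := Finset.card_le_univ _
      rwa [Fintype.card_coe] at h1
    set τ := ⌊(1 - 3 * (η0 / 12)) * (m : ℝ) / 2⌋₊ with hτ
    have hτ1 : 2 * (τ : ℝ) ≤ (1 - 3 * (η0 / 12)) * m := by
      have := Nat.floor_le (a := (1 - 3 * (η0 / 12)) * (m : ℝ) / 2) (by
        apply div_nonneg (mul_nonneg (by linarith) hmpos) (by norm_num))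
      rw [← hτ] at this
      linarith
    have hτ2 : (1 - 3 * (η0 / 12)) * m - 2 ≤ 2 * (τ : ℝ) := by
      have := Nat.lt_floor_add_one ((1 - 3 * (η0 / 12)) * (m : ℝ) / 2)
      rw [← hτ] at this
      linarith
    have hcardι : Fintype.card {s // s ∈ P.parts} = k := Fintype.card_coe _
    have hkm : (n : ℝ) - k ≤ k * m := by
      have h1 : n < k * m + k := by
        have h2 := Nat.div_add_mod n k
        have h3 := Nat.mod_lt n hkpos
        rw [← hmdef] at h2
        omega
      have h2 : (n : ℝ) < k * m + k := by exact_mod_cast h1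
      linarith
    have hlen : l ≤ 2 * (S.card * τ) := by
      have h1 : (c0 - η0 / 2) * (k : ℝ) ≤ S.card := by
        refine (Nat.le_ceil _).trans ?_
        exact_mod_cast hSs
      have h2 : (0 : ℝ) ≤ τ := Nat.cast_nonneg _
      have h3 : (c0 - η0 / 2) * (k : ℝ) * (2 * τ) ≤ S.card * (2 * τ) :=
        mul_le_mul_of_nonneg_right h1 (by linarith)
      have h4 : (c0 - η0 / 2) * (k : ℝ) * ((1 - 3 * (η0 / 12)) * m - 2)
          ≤ (c0 - η0 / 2) * (k : ℝ) * (2 * τ) := by
        apply mul_le_mul_of_nonneg_left hτ2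
        apply mul_nonneg _ (Nat.cast_nonneg _)
        linarith
      have h5 : (k : ℝ) * ((1 - 3 * (η0 / 12)) * m - 2) ≥ (1 - 3 * (η0 / 12)) * ((n : ℝ) - k) - 2 * k := by
        have h6 : (1 - 3 * (η0 / 12)) * ((n : ℝ) - k) ≤ (1 - 3 * (η0 / 12)) * (k * m) :=
          mul_le_mul_of_nonneg_left hkm (by linarith)
        nlinarith
      have h6 : (1 - 3 * (η0 / 12)) * ((n : ℝ) - k) - 2 * k ≥ n - (η0 / 4) * n - 3 * k := by
        nlinarith
      have h7 : 12 * (k : ℝ) ≤ η0 * n := by nlinarith
      have h8 : (c0 - η0 / 2) * ((n : ℝ) - (η0 / 4) * n - 3 * k) ≤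
          (c0 - η0 / 2) * ((k : ℝ) * ((1 - 3 * (η0 / 12)) * m - 2)) := by
        apply mul_le_mul_of_nonneg_left _ (by linarith)
        linarith
      have h9 : (c0 - η0) * (n : ℝ) ≤ (c0 - η0 / 2) * ((n : ℝ) - (η0 / 4) * n - 3 * k) := by
        have hn1 : (0 : ℝ) ≤ n := Nat.cast_nonneg _
        have h10 : (c0 - η0 / 2) * ((η0 / 4) * n + 3 * k) ≤ (η0 / 2) * n := by
          have h11 : (η0 / 4) * n + 3 * k ≤ (η0 / 2) * n := by linarith
          have h12 : 0 ≤ (η0 / 4) * n + 3 * k := by positivity
          have h13 : (c0 - η0 / 2) ≤ 1 := by linarith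
          nlinarith
        nlinarith
      have h10 : (l : ℝ) ≤ 2 * (S.card * τ) := by
        have : (c0 - η0 / 2) * ((k : ℝ) * ((1 - 3 * (η0 / 12)) * m - 2))
          = (c0 - η0 / 2) * (k : ℝ) * ((1 - 3 * (η0 / 12)) * m - 2) := by ring
        linarith
      exact_mod_cast h10
    have hreach : ∀ i ∈ S, R.Reachable a' i := by
      intro i hi
      have h1 := hSK hi
      rw [hK, Finset.mem_filter] at h1
      exact ConnectedComponent.exact (hac.trans h1.2.symm)
    have hK0 : 2 * k * (S.card + 1) + 3 ≤ 2 * k * (k + 1) + 3 := by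
      have : 2 * k * (S.card + 1) ≤ 2 * k * (k + 1) := Nat.mul_le_mul_left _ (by omega)
      omega
    obtain ⟨p, hp1, hp2⟩ := closed_walks (Reachable.refl a') hab hbc hca S hreach φ hφ hφR τ l hodd
      (by rw [hcardι]; omega) hlen
    apply hwalk _ p hp1
    intro j
    have h1 := hp2 j
    rw [hcardι] at h1
    have h2 : (cnt p j : ℝ) ≤ 2 * k * (S.card + 1) + 3 + 2 * τ := by exact_mod_cast h1
    have h3 : 2 * (k : ℝ) * (S.card + 1) ≤ 2 * (M : ℝ) * (M + 1) := by
      have h4 : (S.card : ℝ) ≤ k := by exact_mod_cast hSk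
      have h5 : (0 : ℝ) ≤ S.card := Nat.cast_nonneg _
      nlinarith
    linarith

end Pool.Agent.H47.Odd
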