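import Pool.Agent.H47.Odd.Basic

set_option autoImplicit false

namespace Pool.Agent.H47.Odd

open Finset Classical

variable {α : Type*}

theorem cyc_of_path (G : SimpleGraph α) {u w : α} (p : G.Walk u w) (hp : p.IsPath)
    (h : G.Adj w u) (hlen : 2 ≤ p.length) :
    SimpleGraph.IsContained (SimpleGraph.cycleGraph (p.length + 1)) G := by
  apply cyc_of_fun G (p.length + 1) (by omega) p.getVert
  · intro i hi j hj hij
    exact hp.getVert_injOn (by simp; omega) (by simp; omega) hij
  · intro i hi
    exact p.adj_getVert_succ (by omega)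
  · simp [h]

/-- Paths of prescribed even length in a nearly complete bipartite graph. -/
theorem bip_path (G : SimpleGraph α) (C : Finset α) (g : ℕ) (j : ℕ) :
    ∀ (A F : Finset α) (u w : α), (∀ a ∈ A, (C.filter fun c => ¬ G.Adj a c).card ≤ g) →
      Disjoint A C → u ∈ A → w ∈ A → u ≠ w → j + 2 ≤ A.card → (j + 1) + 2 * g + F.card ≤ C.card →
      ∃ p : G.Walk u w, p.IsPath ∧ p.length = 2 * (j + 1) ∧
        ∀ v ∈ p.support, v ∈ A ∨ (v ∈ C ∧ v ∉ F) := by
  have common : ∀ (A F : Finset α) (a b : α), (∀ a ∈ A, (C.filter fun c => ¬ G.Adj a c).card ≤ g) →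
      a ∈ A → b ∈ A → 1 + 2 * g + F.card ≤ C.card →
      ∃ c ∈ C, c ∉ F ∧ G.Adj a c ∧ G.Adj b c := by
    intro A F a b hA ha hb hC
    by_contra hcon
    push Not at hcon
    have hsub : C ⊆ (C.filter fun c => ¬ G.Adj a c) ∪ (C.filter fun c => ¬ G.Adj b c) ∪ F := by
      intro c hc
      simp only [Finset.mem_union, Finset.mem_filter]
      by_cases h1 : c ∈ F
      · exact Or.inr h1
      · left
        by_cases h2 : G.Adj a c
        · right; exact ⟨hc, hcon c hc h1 h2⟩
        · left; exact ⟨hc, h2⟩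
    have h1 := Finset.card_le_card hsub
    have h2 := Finset.card_union_le ((C.filter fun c => ¬ G.Adj a c) ∪
      (C.filter fun c => ¬ G.Adj b c)) F
    have h3 := Finset.card_union_le (C.filter fun c => ¬ G.Adj a c)
      (C.filter fun c => ¬ G.Adj b c)
    have h4 := hA a ha
    have h5 := hA b hb
    omega
  induction j with
  | zero =>
    intro A F u w hA hdis hu hw huw hAc hC
    obtain ⟨c, hc, hcF, h1, h2⟩ := common A F u w hA hu hw (by omega)
    have huc : u ≠ c := fun h => Finset.disjoint_left.mp hdis hu (h ▸ hc)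
    have hwc : w ≠ c := fun h => Finset.disjoint_left.mp hdis hw (h ▸ hc)
    refine ⟨SimpleGraph.Walk.cons h1 (SimpleGraph.Walk.cons h2.symm SimpleGraph.Walk.nil), ?_, ?_, ?_⟩
    · simp [SimpleGraph.Walk.cons_isPath_iff, huc, hwc.symm, huw]
    · simp
    · intro v hv
      simp at hv
      rcases hv with rfl | rfl | rfl
      · exact Or.inl hu
      · exact Or.inr ⟨hc, hcF⟩
      · exact Or.inl hw
  | succ j ih =>
    intro A F u w hA hdis hu hw huw hAc hC
    -- pick a new vertex of A
    have hne : ((A.erase u).erase w).Nonempty := by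
      rw [← Finset.card_pos]
      have h1 : (A.erase u).card = A.card - 1 := Finset.card_erase_of_mem hu
      have h2 : ((A.erase u).erase w).card = (A.erase u).card - 1 :=
        Finset.card_erase_of_mem (Finset.mem_erase.mpr ⟨huw.symm, hw⟩)
      omega
    obtain ⟨x, hx⟩ := hne
    rw [Finset.mem_erase, Finset.mem_erase] at hx
    obtain ⟨hxw, hxu, hxA⟩ := hx
    obtain ⟨c, hc, hcF, h1, h2⟩ := common A F u x hA hu hxA (by omega)
    obtain ⟨p, hp, hlen, hsup⟩ := ih (A.erase u) (insert c F) x w
      (fun a ha => hA a (Finset.mem_of_mem_erase ha))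
      (Finset.disjoint_of_subset_left (Finset.erase_subset _ _) hdis)
      (Finset.mem_erase.mpr ⟨hxu, hxA⟩) (Finset.mem_erase.mpr ⟨huw.symm, hw⟩) hxw
      (by rw [Finset.card_erase_of_mem hu]; omega)
      (by rw [Finset.card_insert_of_notMem hcF]; omega)
    have huc : u ≠ c := fun h => Finset.disjoint_left.mp hdis hu (h ▸ hc)
    refine ⟨SimpleGraph.Walk.cons h1 (SimpleGraph.Walk.cons h2.symm p), ?_, ?_, ?_⟩
    · rw [SimpleGraph.Walk.cons_isPath_iff, SimpleGraph.Walk.cons_isPath_iff]
      refine ⟨⟨hp, ?_⟩, ?_⟩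
      · intro hmem
        rcases hsup c hmem with h | h
        · exact Finset.disjoint_left.mp hdis (Finset.mem_of_mem_erase h) hc
        · exact h.2 (Finset.mem_insert_self _ _)
      · rw [SimpleGraph.Walk.support_cons, List.mem_cons]
        rintro (h | h)
        · exact huc h
        · rcases hsup u h with h | h
          · exact (Finset.notMem_erase u A) h
          · exact Finset.disjoint_left.mp hdis hu h.1
    · simp [hlen]; ring
    · intro v hv
      simp only [SimpleGraph.Walk.support_cons, List.mem_cons] at hv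
      rcases hv with rfl | rfl | hv
      · exact Or.inl hu
      · exact Or.inr ⟨hc, hcF⟩
      · rcases hsup v hv with h | h
        · exact Or.inl (Finset.mem_of_mem_erase h)
        · exact Or.inr ⟨h.1, fun h' => h.2 (Finset.mem_insert_of_mem h')⟩

/-- Setting of a nearly complete bipartite pair `(A, C)`. -/
structure NearPair (G : SimpleGraph α) (A C : Finset α) (g : ℕ) (j : ℕ) : Prop where
  dis : Disjoint A C
  hA : ∀ a ∈ A, (C.filter fun c => ¬ G.Adj a c).card ≤ g
  hC : ∀ c ∈ C, (A.filter fun a => ¬ G.Adj c a).card ≤ g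
  cardA : (j + 1) + 2 * g + 3 ≤ A.card
  cardC : (j + 1) + 2 * g + 3 ≤ C.card

theorem NearPair.symm {G : SimpleGraph α} {A C : Finset α} {g j : ℕ} (h : NearPair G A C g j) :
    NearPair G C A g j := ⟨h.dis.symm, h.hC, h.hA, h.cardC, h.cardA⟩

/-- an edge inside a side gives an odd cycle -/
theorem NearPair.edge {G : SimpleGraph α} {A C : Finset α} {g j : ℕ} (h : NearPair G A C g j)
    {u w : α} (hu : u ∈ A) (hw : w ∈ A) (huw : G.Adj u w) :
    SimpleGraph.IsContained (SimpleGraph.cycleGraph (2 * j + 3)) G := by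
  have h1 := h.cardA
  have h2 := h.cardC
  obtain ⟨p, hp, hlen, -⟩ := bip_path G C g j A ∅ u w h.hA h.dis hu hw huw.ne (by omega)
    (by simp; omega)
  have := cyc_of_path G p hp huw.symm (by omega)
  rw [hlen] at this
  have e : 2 * (j + 1) + 1 = 2 * j + 3 := by ring
  rwa [e] at this

/-- a vertex outside adjacent to both sides gives an odd cycle -/
theorem NearPair.both {G : SimpleGraph α} {A C : Finset α} {g j : ℕ} (h : NearPair G A C g j)
    {b u w : α} (hbA : b ∉ A) (hbC : b ∉ C) (hu : u ∈ A) (hw : w ∈ C) (hbu : G.Adj b u)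
    (hbw : G.Adj b w) :
    SimpleGraph.IsContained (SimpleGraph.cycleGraph (2 * j + 5)) G := by
  have h1 := h.cardA
  have h2 := h.cardC
  -- a neighbour of w in A different from u
  have hex : ∃ x ∈ A, x ≠ u ∧ G.Adj w x := by
    by_contra hcon
    push Not at hcon
    have hsub : A ⊆ insert u (A.filter fun a => ¬ G.Adj w a) := by
      intro a ha
      rw [Finset.mem_insert, Finset.mem_filter]
      by_cases hau : a = u
      · exact Or.inl hau
      · exact Or.inr ⟨ha, hcon a ha hau⟩
    have h3 := Finset.card_le_card hsub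
    have h4 := Finset.card_insert_le u (A.filter fun a => ¬ G.Adj w a)
    have h5 := h.hC w hw
    omega
  obtain ⟨x, hx, hxu, hwx⟩ := hex
  obtain ⟨p, hp, hlen, hsup⟩ := bip_path G C g j A {w} u x h.hA h.dis hu hx hxu.symm (by omega)
    (by simp; omega)
  have hwA : w ∉ A := fun h' => Finset.disjoint_left.mp h.dis h' hw
  have hpw : w ∉ p.support := by
    intro hm
    rcases hsup w hm with h3 | h3
    · exact hwA h3
    · exact h3.2 (Finset.mem_singleton_self w)
  have hpb : b ∉ p.support := by
    intro hm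
    rcases hsup b hm with h3 | h3
    · exact hbA h3
    · exact hbC h3.1
  have hbw' : b ≠ w := hbw.ne
  have hq : (SimpleGraph.Walk.cons hbu (p.concat hwx.symm)).IsPath := by
    rw [SimpleGraph.Walk.cons_isPath_iff]
    refine ⟨hp.concat hpw hwx.symm, ?_⟩
    rw [SimpleGraph.Walk.support_concat]
    simp [hpb, hbw']
  have := cyc_of_path G _ hq hbw.symm (by simp [SimpleGraph.Walk.length_concat])
  rw [SimpleGraph.Walk.length_cons, SimpleGraph.Walk.length_concat, hlen] at this
  have e : 2 * (j + 1) + 1 + 1 + 1 = 2 * j + 5 := by ring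
  rwa [e] at this

/-- two adjacent outside vertices with distinct neighbours in a side give an odd cycle -/
theorem NearPair.two {G : SimpleGraph α} {A C : Finset α} {g j : ℕ} (h : NearPair G A C g j)
    {b b' u u' : α} (hbA : b ∉ A) (hbC : b ∉ C) (hbA' : b' ∉ A) (hbC' : b' ∉ C)
    (hu : u ∈ A) (hu' : u' ∈ A) (huu : u ≠ u') (hbu : G.Adj b u)
    (hbu' : G.Adj b' u') (hbb : G.Adj b b') :
    SimpleGraph.IsContained (SimpleGraph.cycleGraph (2 * j + 5)) G := by
  have h1 := h.cardA
  have h2 := h.cardC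
  obtain ⟨p, hp, hlen, hsup⟩ := bip_path G C g j A ∅ u u' h.hA h.dis hu hu' huu (by omega)
    (by simp; omega)
  have hpb' : b' ∉ p.support := by
    intro hm
    rcases hsup b' hm with h3 | h3
    · exact hbA' h3
    · exact hbC' h3.1
  have hpb : b ∉ p.support := by
    intro hm
    rcases hsup b hm with h3 | h3
    · exact hbA h3
    · exact hbC h3.1
  have hbw' : b ≠ b' := hbb.ne
  have hq : (SimpleGraph.Walk.cons hbu (p.concat hbu'.symm)).IsPath := by
    rw [SimpleGraph.Walk.cons_isPath_iff]
    refine ⟨hp.concat hpb' hbu'.symm, ?_⟩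
    rw [SimpleGraph.Walk.support_concat]
    simp [hpb, hbw']
  have := cyc_of_path G _ hq hbb.symm (by simp [SimpleGraph.Walk.length_concat])
  rw [SimpleGraph.Walk.length_cons, SimpleGraph.Walk.length_concat, hlen] at this
  have e : 2 * (j + 1) + 1 + 1 + 1 = 2 * j + 5 := by ring
  rwa [e] at this

theorem NearPair.mono {G : SimpleGraph α} {A C : Finset α} {g j j' : ℕ} (h : NearPair G A C g j)
    (hj : j' ≤ j) : NearPair G A C g j' :=
  ⟨h.dis, h.hA, h.hC, by have := h.cardA; omega, by have := h.cardC; omega⟩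

/-- Structure given by a near pair, when there is no cycle of length `2 j + 5`: all vertices
outside of a set `D` of vertices with few neighbours in `A ∪ C` span a triangle-free graph. -/
theorem NearPair.structure {G : SimpleGraph α} [Fintype α] {A C : Finset α} {g j : ℕ}
    (h : NearPair G A C g (j + 1))
    (hfree : ¬ SimpleGraph.IsContained (SimpleGraph.cycleGraph (2 * j + 5)) G) :
    ∃ S : Finset α, (∀ u v, u ∈ S → v ∈ S → G.Adj u v →
      ((A ∪ C).filter fun w => G.Adj u w).card ≤ 1 ∧ u ∉ A ∪ C ∨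
      ((A ∪ C).filter fun w => G.Adj v w).card ≤ 1 ∧ v ∉ A ∪ C) ∧
      (∀ u v, u ∉ S → v ∉ S → G.Adj u v →
      ((A ∪ C).filter fun w => G.Adj u w).card ≤ 1 ∧ u ∉ A ∪ C ∨
      ((A ∪ C).filter fun w => G.Adj v w).card ≤ 1 ∧ v ∉ A ∪ C) := by
  have h0 : NearPair G A C g j := h.mono (Nat.le_succ j)
  have hs := h.symm
  have h0s := h0.symm
  -- `side A' C'` argument
  have main : ∀ A' C' : Finset α, NearPair G A' C' g (j + 1) → ∀ u v,
      (u ∈ A' ∨ (u ∉ A' ∧ u ∉ C' ∧ ∀ w ∈ A', ¬ G.Adj u w)) →
      (v ∈ A' ∨ (v ∉ A' ∧ v ∉ C' ∧ ∀ w ∈ A', ¬ G.Adj v w)) → G.Adj u v →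
      ((C').filter fun w => G.Adj u w).card ≤ 1 ∧ u ∉ A' ∪ C' ∨
      ((C').filter fun w => G.Adj v w).card ≤ 1 ∧ v ∉ A' ∪ C' := by
    intro A' C' hN u v hu hv huv
    have hN0 := (hN.mono (Nat.le_succ j)).symm
    rcases hu with hu | ⟨hu1, hu2, hu3⟩
    · rcases hv with hv | ⟨hv1, hv2, hv3⟩
      · exfalso
        apply hfree
        have := hN.edge hu hv huv
        have e : 2 * (j + 1) + 3 = 2 * j + 5 := by ring
        rwa [e] at this
      · exact absurd huv.symm (hv3 u hu)
    · rcases hv with hv | ⟨hv1, hv2, hv3⟩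
      · exact absurd huv (hu3 v hv)
      · by_contra hcon
        push Not at hcon
        obtain ⟨c1, c2⟩ := hcon
        have hu' : u ∉ A' ∪ C' := by simp [hu1, hu2]
        have hv' : v ∉ A' ∪ C' := by simp [hv1, hv2]
        have d1 : 1 < (C'.filter fun w => G.Adj u w).card := by
          by_contra hh
          exact hu' (c1 (not_lt.mp hh))
        have d2 : 1 < (C'.filter fun w => G.Adj v w).card := by
          by_contra hh
          exact hv' (c2 (not_lt.mp hh))
        obtain ⟨a, ha⟩ := Finset.card_pos.mp (lt_trans zero_lt_one d1)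
        obtain ⟨b, hb, hba⟩ := Finset.exists_mem_ne d2 a
        rw [Finset.mem_filter] at ha hb
        exact hfree (hN0.two hu2 hu1 hv2 hv1 ha.1 hb.1 hba.symm ha.2 hb.2 huv)
  refine ⟨A ∪ Finset.univ.filter fun v => v ∉ A ∧ v ∉ C ∧ ∀ w ∈ A, ¬ G.Adj v w, ?_, ?_⟩
  · intro u v hu hv huv
    simp only [Finset.mem_union, Finset.mem_filter, Finset.mem_univ, true_and] at hu hv
    have := main A C h u v hu hv huv
    rcases this with ⟨c, d⟩ | ⟨c, d⟩
    · left
      refine ⟨?_, d⟩
      rcases hu with hu | ⟨hu1, hu2, hu3⟩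
      · exact absurd (Finset.mem_union_left _ hu) d
      · rw [Finset.filter_union]
        have : (A.filter fun w => G.Adj u w) = ∅ := by
          rw [Finset.filter_eq_empty_iff]; exact hu3
        rw [this, Finset.empty_union]; exact c
    · right
      refine ⟨?_, d⟩
      rcases hv with hv | ⟨hv1, hv2, hv3⟩
      · exact absurd (Finset.mem_union_left _ hv) d
      · rw [Finset.filter_union]
        have : (A.filter fun w => G.Adj v w) = ∅ := by
          rw [Finset.filter_eq_empty_iff]; exact hv3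
        rw [this, Finset.empty_union]; exact c
  · intro u v hu hv huv
    simp only [Finset.mem_union, Finset.mem_filter, Finset.mem_univ, true_and, not_or] at hu hv
    -- a vertex not in S is in C, or is outside and has a neighbour in A, so no neighbour in C
    have conv : ∀ x : α, (x ∉ A ∧ ¬ (x ∉ A ∧ x ∉ C ∧ ∀ w ∈ A, ¬ G.Adj x w)) →
        (x ∈ C ∨ (x ∉ C ∧ x ∉ A ∧ ∀ w ∈ C, ¬ G.Adj x w)) := by
      intro x hx
      by_cases hxC : x ∈ C
      · exact Or.inl hxC
      · right
        refine ⟨hxC, hx.1, ?_⟩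
        intro w hw hxw
        have h1 : ∃ a ∈ A, G.Adj x a := by
          by_contra hno
          push Not at hno
          exact hx.2 ⟨hx.1, hxC, hno⟩
        obtain ⟨a, ha, hxa⟩ := h1
        exact hfree (h0.both hx.1 hxC ha hw hxa hxw)
    have hu' := conv u hu
    have hv' := conv v hv
    have := main C A hs u v hu' hv' huv
    rcases this with ⟨c, d⟩ | ⟨c, d⟩
    · left
      rw [Finset.union_comm] at d
      refine ⟨?_, d⟩
      rcases hu' with hu' | ⟨hu1, hu2, hu3⟩
      · exact absurd (Finset.mem_union_right _ hu') d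
      · rw [Finset.filter_union]
        have : (C.filter fun w => G.Adj u w) = ∅ := by
          rw [Finset.filter_eq_empty_iff]; exact hu3
        rw [this, Finset.union_empty]; exact c
    · right
      rw [Finset.union_comm] at d
      refine ⟨?_, d⟩
      rcases hv' with hv' | ⟨hv1, hv2, hv3⟩
      · exact absurd (Finset.mem_union_right _ hv') d
      · rw [Finset.filter_union]
        have : (C.filter fun w => G.Adj v w) = ∅ := by
          rw [Finset.filter_eq_empty_iff]; exact hv3
        rw [this, Finset.union_empty]; exact c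

theorem sqrt_floor_ge (n : ℕ) (hn : 4 ≤ n) : (n : ℝ) / 2 - 1 / 4 ≤ √((n ^ 2 / 4 : ℕ) : ℝ) := by
  have h1 : n ^ 2 ≤ 4 * (n ^ 2 / 4) + 3 := by omega
  have h2 : ((n ^ 2 : ℕ) : ℝ) ≤ 4 * ((n ^ 2 / 4 : ℕ) : ℝ) + 3 := by exact_mod_cast h1
  have h3 : (4 : ℝ) ≤ n := by exact_mod_cast hn
  apply Real.le_sqrt_of_sq_le
  push_cast at h2
  nlinarith

theorem sqrt_floor_le (n : ℕ) : √((n ^ 2 / 4 : ℕ) : ℝ) ≤ (n : ℝ) / 2 := by
  have h1 : 4 * (n ^ 2 / 4) ≤ n ^ 2 := by omega
  have h2 : 4 * ((n ^ 2 / 4 : ℕ) : ℝ) ≤ ((n ^ 2 : ℕ) : ℝ) := by exact_mod_cast h1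
  push_cast at h2
  rw [Real.sqrt_le_left (by positivity)]
  nlinarith

/-- The spectral conclusion from the structure. -/
theorem NearPair.spectral {G : SimpleGraph α} [Fintype α] {A C : Finset α} {g j : ℕ}
    (h : NearPair G A C g (j + 1))
    (hfree : ¬ SimpleGraph.IsContained (SimpleGraph.cycleGraph (2 * j + 5)) G)
    (hcard : 100 * (Finset.univ \ (A ∪ C)).card ≤ Fintype.card α) (hn : 20 ≤ Fintype.card α)
    (y : α → ℝ) : Q G y ≤ √(((Fintype.card α) ^ 2 / 4 : ℕ) : ℝ) * N y := by
  obtain ⟨S, hS1, hS2⟩ := h.structure hfree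
  set D : Finset α := (Finset.univ \ (A ∪ C)).filter fun v =>
    ((A ∪ C).filter fun w => G.Adj v w).card ≤ 1 with hD
  set W : Finset α := Finset.univ \ D with hW
  set n := Fintype.card α with hn'
  have hmemD : ∀ v, v ∈ D ↔ (v ∉ A ∪ C ∧ ((A ∪ C).filter fun w => G.Adj v w).card ≤ 1) := by
    intro v
    rw [hD, Finset.mem_filter, Finset.mem_sdiff]
    simp
  -- The graph H
  let H : SimpleGraph α :=
    { Adj := fun u v => G.Adj u v ∧ u ∈ W ∧ v ∈ W
      symm := ⟨fun u v h => ⟨h.1.symm, h.2.2, h.2.1⟩⟩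
      loopless := ⟨fun u h => G.loopless.irrefl u h.1⟩ }
  have hHadj : ∀ u v, H.Adj u v ↔ G.Adj u v ∧ u ∈ W ∧ v ∈ W := fun u v => Iff.rfl
  have hcross : ∀ u v, H.Adj u v → (u ∈ S ↔ v ∉ S) := by
    intro u v huv
    rw [hHadj, hW, Finset.mem_sdiff, Finset.mem_sdiff, hmemD, hmemD] at huv
    obtain ⟨h1, h2, h3⟩ := huv
    have h2' := h2.2
    have h3' := h3.2
    by_cases hu : u ∈ S
    · by_cases hv : v ∈ S
      · exfalso
        rcases hS1 u v hu hv h1 with h4 | h4
        · exact h2' ⟨h4.2, h4.1⟩
        · exact h3' ⟨h4.2, h4.1⟩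
      · simp [hu, hv]
    · by_cases hv : v ∈ S
      · simp [hu, hv]
      · exfalso
        rcases hS2 u v hu hv h1 with h4 | h4
        · exact h2' ⟨h4.2, h4.1⟩
        · exact h3' ⟨h4.2, h4.1⟩
  have htf : ∀ u v w, H.Adj u v → H.Adj v w → ¬ H.Adj u w := by
    intro u v w h1 h2 h3
    have e1 := hcross u v h1
    have e2 := hcross v w h2
    have e3 := hcross u w h3
    tauto
  have hHW : ∀ u v, H.Adj u v → u ∈ W := fun u v h => h.2.1
  have hTF := TF H W hHW htf
  by_cases hD0 : D = ∅
  · have hHG : H = G := by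
      ext u v
      rw [hHadj, hW, hD0]
      simp
    have h1 := hTF y
    have hWc : W.card = n := by rw [hW, hD0, Finset.sdiff_empty, Finset.card_univ]
    rw [hHG, hWc] at h1
    exact h1
  · have hDpos : 1 ≤ D.card := Finset.card_pos.mpr (Finset.nonempty_iff_ne_empty.mpr hD0)
    have hWc : W.card + D.card = n := by
      rw [hW, hn', ← Finset.card_univ]
      exact Finset.card_sdiff_add_card_eq_card (Finset.subset_univ D)
    have hDc : 100 * D.card ≤ n := by
      refine le_trans (Nat.mul_le_mul_left _ (Finset.card_le_card ?_)) hcard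
      rw [hD]; exact Finset.filter_subset _ _
    -- degrees of vertices of D
    have hdeg : ∀ v ∈ D, 100 * G.degree v ≤ n + 100 := by
      intro v hv
      rw [hmemD] at hv
      have hsub : G.neighborFinset v ⊆ ((A ∪ C).filter fun w => G.Adj v w) ∪
          (Finset.univ \ (A ∪ C)) := by
        intro w hw
        rw [SimpleGraph.mem_neighborFinset] at hw
        rw [Finset.mem_union, Finset.mem_filter, Finset.mem_sdiff]
        by_cases h5 : w ∈ A ∪ C
        · exact Or.inl ⟨h5, hw⟩
        · exact Or.inr ⟨Finset.mem_univ _, h5⟩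
      have h1 := Finset.card_le_card hsub
      have h2 := Finset.card_union_le ((A ∪ C).filter fun w => G.Adj v w)
          (Finset.univ \ (A ∪ C))
      rw [SimpleGraph.card_neighborFinset_eq_degree] at h1
      omega
    -- split the quadratic form
    set ND : ℝ := ∑ v ∈ D, y v ^ 2 with hND
    have hNDnn : 0 ≤ ND := Finset.sum_nonneg fun _ _ => sq_nonneg _
    -- H part
    set y' : α → ℝ := fun v => if v ∈ W then y v else 0 with hy'
    have hQH : Q H y = Q H y' := by
      unfold Q
      apply Finset.sum_congr rfl; intro u _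
      apply Finset.sum_congr rfl; intro v _
      split_ifs with h5
      · rw [hHadj] at h5
        simp [hy', h5.2.1, h5.2.2]
      · rfl
    have hNy' : N y' = N y - ND := by
      unfold N
      rw [hND, hy']
      have e1 : ∑ u, (if u ∈ W then y u else 0) ^ 2 = ∑ u ∈ W, y u ^ 2 := by
        rw [← Finset.sum_filter_add_sum_filter_not Finset.univ (fun u => u ∈ W)]
        have e2 : ∑ x ∈ Finset.univ.filter (fun x => x ∉ W), (if x ∈ W then y x else 0) ^ 2 = 0 := by
          apply Finset.sum_eq_zero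
          intro x hx
          rw [Finset.mem_filter] at hx
          simp [hx.2]
        rw [e2, add_zero]
        apply Finset.sum_congr
        · ext x; simp
        · intro x hx
          simp [hx]
      rw [e1, hW, eq_sub_iff_add_eq]
      exact Finset.sum_sdiff (Finset.subset_univ D)
    have hQH2 : Q H y ≤ ((n : ℝ) - D.card) / 2 * (N y - ND) := by
      rw [hQH, ← hNy']
      refine (hTF y').trans ?_
      apply mul_le_mul_of_nonneg_right _ (N_nonneg _)
      refine (sqrt_floor_le _).trans ?_
      have : (W.card : ℝ) = n - D.card := by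
        rw [eq_sub_iff_add_eq]; exact_mod_cast hWc
      rw [this]
    -- the difference
    have hdiff : Q G y - Q H y ≤ ∑ u ∈ D, ∑ v, if G.Adj u v then
        (4 * y u ^ 2 + (1 / 4) * y v ^ 2) else 0 := by
      have e1 : Q G y - Q H y ≤ ∑ u, ∑ v, (if u ∈ D ∧ G.Adj u v then
          (2 * y u ^ 2 + (1 / 8) * y v ^ 2) else 0) + ∑ u, ∑ v, (if v ∈ D ∧ G.Adj u v then
          (2 * y v ^ 2 + (1 / 8) * y u ^ 2) else 0) := by
        unfold Q
        rw [← Finset.sum_sub_distrib, ← Finset.sum_add_distrib]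
        apply Finset.sum_le_sum; intro u _
        rw [← Finset.sum_sub_distrib, ← Finset.sum_add_distrib]
        apply Finset.sum_le_sum; intro v _
        have k1 : y u * y v ≤ 2 * y u ^ 2 + (1 / 8) * y v ^ 2 := by
          nlinarith [sq_nonneg (4 * y u - y v)]
        have k2 : y u * y v ≤ 2 * y v ^ 2 + (1 / 8) * y u ^ 2 := by
          nlinarith [sq_nonneg (4 * y v - y u)]
        have k3 : 0 ≤ 2 * y u ^ 2 + (1 / 8) * y v ^ 2 := by positivity
        have k4 : 0 ≤ 2 * y v ^ 2 + (1 / 8) * y u ^ 2 := by positivity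
        have hadj2 : H.Adj u v ↔ G.Adj u v ∧ u ∉ D ∧ v ∉ D := by
          rw [hHadj, hW]; simp
        by_cases g1 : G.Adj u v
        · by_cases g2 : u ∈ D
          · by_cases g3 : v ∈ D
            · simp only [hadj2, g1, g2, g3, and_true, if_true, not_true_eq_false, and_false,
                if_false, sub_zero]
              linarith
            · simp only [hadj2, g1, g2, g3, and_true, if_true, not_true_eq_false, and_false,
                false_and, if_false, sub_zero, add_zero]
              linarith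
          · by_cases g3 : v ∈ D
            · simp only [hadj2, g1, g2, g3, and_true, if_true, not_true_eq_false, and_false,
                false_and, if_false, sub_zero, zero_add]
              linarith
            · simp [hadj2, g1, g2, g3]
        · simp [hadj2, g1]
      have e2 : ∑ u, ∑ v, (if v ∈ D ∧ G.Adj u v then
          (2 * y v ^ 2 + (1 / 8) * y u ^ 2) else 0) = ∑ u, ∑ v, (if u ∈ D ∧ G.Adj u v then
          (2 * y u ^ 2 + (1 / 8) * y v ^ 2) else 0) := by
        rw [Finset.sum_comm]
        apply Finset.sum_congr rfl; intro u _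
        apply Finset.sum_congr rfl; intro v _
        simp only [G.adj_comm u v]
      rw [e2, ← two_mul] at e1
      refine e1.trans (le_of_eq ?_)
      have e3 : ∑ u ∈ D, ∑ v, (if G.Adj u v then (4 * y u ^ 2 + (1 / 4) * y v ^ 2) else 0)
          = ∑ u, ∑ v, (if u ∈ D ∧ G.Adj u v then (4 * y u ^ 2 + (1 / 4) * y v ^ 2) else 0) := by
        rw [← Finset.sum_filter_add_sum_filter_not Finset.univ (fun u => u ∈ D)
          (fun u => ∑ v, (if u ∈ D ∧ G.Adj u v then (4 * y u ^ 2 + (1 / 4) * y v ^ 2) else 0))]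
        have e4 : ∑ x ∈ Finset.univ.filter (fun x => x ∉ D),
            ∑ v, (if x ∈ D ∧ G.Adj x v then (4 * y x ^ 2 + (1 / 4) * y v ^ 2) else 0) = 0 := by
          apply Finset.sum_eq_zero
          intro x hx
          rw [Finset.mem_filter] at hx
          apply Finset.sum_eq_zero
          intro v _
          simp [hx.2]
        rw [e4, add_zero]
        apply Finset.sum_congr
        · ext x; simp
        · intro x hx
          rw [Finset.mem_filter] at hx
          simp [hx.2]
      rw [e3, Finset.mul_sum]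
      apply Finset.sum_congr rfl; intro u _
      rw [Finset.mul_sum]
      apply Finset.sum_congr rfl; intro v _
      split_ifs
      · ring
      · simp
    have hdiff2 : ∑ u ∈ D, ∑ v, (if G.Adj u v then
        (4 * y u ^ 2 + (1 / 4) * y v ^ 2) else 0)
        ≤ 4 * (((n : ℝ) + 100) / 100) * ND + (D.card : ℝ) * (1 / 4) * N y := by
      have e1 : ∀ u ∈ D, ∑ v, (if G.Adj u v then (4 * y u ^ 2 + (1 / 4) * y v ^ 2) else 0)
          ≤ 4 * (((n : ℝ) + 100) / 100) * y u ^ 2 + (1 / 4) * N y := by
        intro u hu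
        have e2 : ∑ v, (if G.Adj u v then (4 * y u ^ 2 + (1 / 4) * y v ^ 2) else 0)
            = ∑ v, (if G.Adj u v then 4 * y u ^ 2 else 0)
              + ∑ v, (if G.Adj u v then (1 / 4) * y v ^ 2 else 0) := by
          rw [← Finset.sum_add_distrib]
          apply Finset.sum_congr rfl; intro v _
          split_ifs <;> simp
        rw [e2]
        apply add_le_add
        · rw [Finset.sum_ite, Finset.sum_const_zero, add_zero, Finset.sum_const, nsmul_eq_mul]
          have e3 : (Finset.univ.filter fun v => G.Adj u v) = G.neighborFinset u := by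
            ext v; simp
          rw [e3, SimpleGraph.card_neighborFinset_eq_degree]
          have e4 : 100 * (G.degree u : ℝ) ≤ n + 100 := by exact_mod_cast hdeg u hu
          have e5 : (0 : ℝ) ≤ y u ^ 2 := sq_nonneg _
          nlinarith
        · unfold N
          rw [Finset.mul_sum]
          apply Finset.sum_le_sum; intro v _
          have : (0 : ℝ) ≤ y v ^ 2 := sq_nonneg _
          split_ifs
          · exact le_refl _
          · positivity
      refine (Finset.sum_le_sum e1).trans (le_of_eq ?_)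
      rw [Finset.sum_add_distrib, ← Finset.mul_sum, Finset.sum_const, nsmul_eq_mul, hND]
      ring
    have hDr : (1 : ℝ) ≤ D.card := by exact_mod_cast hDpos
    have hDr2 : 100 * (D.card : ℝ) ≤ n := by exact_mod_cast hDc
    have hnr : (20 : ℝ) ≤ n := by exact_mod_cast hn
    have hfin := sqrt_floor_ge n (by omega)
    have hN := N_nonneg y
    have hfin2 : ((n : ℝ) / 2 - 1 / 4) * N y ≤ √((n ^ 2 / 4 : ℕ) : ℝ) * N y :=
      mul_le_mul_of_nonneg_right hfin hN
    have t1 : Q G y ≤ ((n : ℝ) - D.card) / 2 * (N y - ND)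
      + 4 * (((n : ℝ) + 100) / 100) * ND + (D.card : ℝ) * (1 / 4) * N y := by linarith
    have t2 : ((n : ℝ) - D.card) / 2 * (N y - ND)
      + 4 * (((n : ℝ) + 100) / 100) * ND + (D.card : ℝ) * (1 / 4) * N y
      = ((n : ℝ) / 2 - D.card / 4) * N y - (((n : ℝ) - D.card) / 2 - 4 * (((n : ℝ) + 100) / 100)) * ND := by
      ring
    have t3 : 0 ≤ (((n : ℝ) - D.card) / 2 - 4 * (((n : ℝ) + 100) / 100)) * ND := by
      apply mul_nonneg _ hNDnn
      linarith
    have t4 : ((n : ℝ) / 2 - D.card / 4) * N y ≤ ((n : ℝ) / 2 - 1 / 4) * N y := by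
      apply mul_le_mul_of_nonneg_right _ hN
      linarith
    linarith

/-- Near-extremal case: a large cut. -/
theorem near_main {G : SimpleGraph α} [Fintype α] (X : Finset α) (l : ℕ) (hodd : Odd l)
    (hl5 : 5 ≤ l) (hl : 5 * l ≤ 2 * Fintype.card α) (hn : 10000 ≤ Fintype.card α)
    (hcut : (1 / 4 - 1 / 20000) * (Fintype.card α : ℝ) ^ 2 ≤
      ∑ x ∈ X, (((Finset.univ \ X).filter fun w => G.Adj x w).card : ℝ))
    (hfree : ¬ SimpleGraph.IsContained (SimpleGraph.cycleGraph l) G)
    (y : α → ℝ) : Q G y ≤ √(((Fintype.card α) ^ 2 / 4 : ℕ) : ℝ) * N y := by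
  set n := Fintype.card α with hn'
  set Y := Finset.univ \ X with hY
  have hXY : X.card + Y.card = n := by
    rw [hY, hn', ← Finset.card_univ, add_comm]
    exact Finset.card_sdiff_add_card_eq_card (Finset.subset_univ X)
  set g := n / 100 with hg
  -- missing counts
  have hpart : ∀ x, ((Y.filter fun w => G.Adj x w).card : ℝ) +
      ((Y.filter fun w => ¬ G.Adj x w).card : ℝ) = Y.card := by
    intro x
    exact_mod_cast Finset.card_filter_add_card_filter_not (s := Y) (fun w => G.Adj x w)
  have hsumX : ∑ x ∈ X, ((Y.filter fun w => ¬ G.Adj x w).card : ℝ)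
      = (X.card : ℝ) * Y.card - ∑ x ∈ X, ((Y.filter fun w => G.Adj x w).card : ℝ) := by
    have h1 := Finset.sum_congr (rfl : X = X) (fun x _ => hpart x)
    rw [Finset.sum_add_distrib, Finset.sum_const, nsmul_eq_mul] at h1
    linarith
  have hXYr : (X.card : ℝ) + Y.card = n := by exact_mod_cast hXY
  have hmissX : ∑ x ∈ X, ((Y.filter fun w => ¬ G.Adj x w).card : ℝ) ≤ (n : ℝ) ^ 2 / 20000 := by
    rw [hsumX]
    nlinarith [sq_nonneg ((X.card : ℝ) - Y.card)]
  have hprod : (1 / 4 - 1 / 20000) * (n : ℝ) ^ 2 ≤ (X.card : ℝ) * Y.card := by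
    have h0 : 0 ≤ ∑ x ∈ X, ((Y.filter fun w => ¬ G.Adj x w).card : ℝ) :=
      Finset.sum_nonneg fun _ _ => Nat.cast_nonneg _
    linarith
  have hmissY : ∑ x ∈ Y, ((X.filter fun w => ¬ G.Adj x w).card : ℝ) ≤ (n : ℝ) ^ 2 / 20000 := by
    have e : ∑ x ∈ Y, ((X.filter fun w => ¬ G.Adj x w).card : ℝ)
        = ∑ x ∈ X, ((Y.filter fun w => ¬ G.Adj x w).card : ℝ) := by
      have e1 : ∀ (s t : Finset α), ∑ x ∈ s, ((t.filter fun w => ¬ G.Adj x w).card : ℝ)
          = ∑ x ∈ s, ∑ w ∈ t, if ¬ G.Adj x w then (1 : ℝ) else 0 := by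
        intro s t
        apply Finset.sum_congr rfl; intro x _
        rw [Finset.sum_boole]
      rw [e1, e1, Finset.sum_comm]
      apply Finset.sum_congr rfl; intro x _
      apply Finset.sum_congr rfl; intro w _
      rw [G.adj_comm]
    rw [e]; exact hmissX
  have hgn : (n : ℝ) / 100 ≤ g + 1 := by
    have : n ≤ 100 * (g + 1) := by omega
    have h2 : (n : ℝ) ≤ 100 * (g + 1) := by exact_mod_cast this
    linarith
  have hnpos : (10000 : ℝ) ≤ n := by exact_mod_cast hn
  have hbad : ∀ (s t : Finset α), ∑ x ∈ s, ((t.filter fun w => ¬ G.Adj x w).card : ℝ)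
      ≤ (n : ℝ) ^ 2 / 20000 → 200 * (s.filter fun x => g < (t.filter fun w => ¬ G.Adj x w).card).card ≤ n := by
    intro s t hst
    set b := (s.filter fun x => g < (t.filter fun w => ¬ G.Adj x w).card) with hb
    have h1 : (b.card : ℝ) * (g + 1) ≤ (n : ℝ) ^ 2 / 20000 := by
      refine le_trans ?_ hst
      calc (b.card : ℝ) * (g + 1) = ∑ x ∈ b, ((g : ℝ) + 1) := by
            rw [Finset.sum_const, nsmul_eq_mul]
        _ ≤ ∑ x ∈ b, ((t.filter fun w => ¬ G.Adj x w).card : ℝ) := by
            apply Finset.sum_le_sum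
            intro x hx
            rw [hb, Finset.mem_filter] at hx
            exact_mod_cast hx.2
        _ ≤ _ := by
            apply Finset.sum_le_sum_of_subset_of_nonneg
            · rw [hb]; exact Finset.filter_subset _ _
            · intro _ _ _; exact Nat.cast_nonneg _
    have h2 : (b.card : ℝ) * ((n : ℝ) / 100) ≤ (n : ℝ) ^ 2 / 20000 := by
      refine le_trans ?_ h1
      exact mul_le_mul_of_nonneg_left hgn (Nat.cast_nonneg _)
    have h3 : 200 * (b.card : ℝ) ≤ n := by
      by_contra hcon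
      push Not at hcon
      nlinarith
    exact_mod_cast h3
  set BX := (X.filter fun x => g < (Y.filter fun w => ¬ G.Adj x w).card) with hBX
  set BY := (Y.filter fun x => g < (X.filter fun w => ¬ G.Adj x w).card) with hBY
  have hBXc := hbad X Y hmissX
  have hBYc := hbad Y X hmissY
  rw [← hBX] at hBXc
  rw [← hBY] at hBYc
  set A := X \ BX with hA
  set C := Y \ BY with hC
  have hAc : A.card + BX.card = X.card := Finset.card_sdiff_add_card_eq_card (Finset.filter_subset _ _)
  have hCc : C.card + BY.card = Y.card := Finset.card_sdiff_add_card_eq_card (Finset.filter_subset _ _)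
  -- sizes of X and Y
  have hsize : ∀ a b : ℝ, a + b = n → (1 / 4 - 1 / 20000) * (n : ℝ) ^ 2 ≤ a * b →
      (0.49 : ℝ) * n ≤ a := by
    intro a b h1 h2
    have hb : b = n - a := by linarith
    subst hb
    by_contra hcon
    push Not at hcon
    have h3 : 0 < (n : ℝ) - a - 0.51 * n := by nlinarith
    nlinarith [mul_pos (sub_pos.mpr hcon) h3]
  have hXs := hsize X.card Y.card hXYr hprod
  have hYs := hsize Y.card X.card (by linarith) (by linarith)
  have hXs' : 49 * n ≤ 100 * X.card := by
    have : (49 : ℝ) * n ≤ 100 * X.card := by linarith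
    exact_mod_cast this
  have hYs' : 49 * n ≤ 100 * Y.card := by
    have : (49 : ℝ) * n ≤ 100 * Y.card := by linarith
    exact_mod_cast this
  obtain ⟨k, hk⟩ := hodd
  obtain ⟨j, rfl⟩ : ∃ j, k = j + 2 := ⟨k - 2, by omega⟩
  have hlj : l = 2 * j + 5 := by omega
  have hdisXY : Disjoint X Y := by
    rw [hY]; exact Finset.disjoint_sdiff
  have hNP : NearPair G A C g (j + 1) := by
    refine ⟨?_, ?_, ?_, ?_, ?_⟩
    · exact Finset.disjoint_of_subset_left Finset.sdiff_subset
        (Finset.disjoint_of_subset_right Finset.sdiff_subset hdisXY)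
    · intro a ha
      rw [hA, Finset.mem_sdiff, hBX, Finset.mem_filter] at ha
      have h1 : (Y.filter fun w => ¬ G.Adj a w).card ≤ g := by
        by_contra hcon
        exact ha.2 ⟨ha.1, not_le.mp hcon⟩
      refine le_trans (Finset.card_le_card ?_) h1
      exact Finset.filter_subset_filter _ Finset.sdiff_subset
    · intro a ha
      rw [hC, Finset.mem_sdiff, hBY, Finset.mem_filter] at ha
      have h1 : (X.filter fun w => ¬ G.Adj a w).card ≤ g := by
        by_contra hcon
        exact ha.2 ⟨ha.1, not_le.mp hcon⟩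
      refine le_trans (Finset.card_le_card ?_) h1
      exact Finset.filter_subset_filter _ Finset.sdiff_subset
    · omega
    · omega
  have hB : 100 * (Finset.univ \ (A ∪ C)).card ≤ n := by
    have hsub : (Finset.univ \ (A ∪ C)) ⊆ BX ∪ BY := by
      intro v hv
      rw [Finset.mem_sdiff, Finset.mem_union] at hv
      rw [Finset.mem_union]
      by_contra hcon
      push Not at hcon
      apply hv.2
      by_cases hvX : v ∈ X
      · left; rw [hA, Finset.mem_sdiff]; exact ⟨hvX, hcon.1⟩
      · right; rw [hC, Finset.mem_sdiff, hY, Finset.mem_sdiff]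
        exact ⟨⟨Finset.mem_univ _, hvX⟩, hcon.2⟩
    have h1 := Finset.card_le_card hsub
    have h2 := Finset.card_union_le BX BY
    omega
  rw [hlj] at hfree
  exact hNP.spectral hfree hB (by omega) y

end Pool.Agent.H47.Odd
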