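import Pool.Agent.H47.Odd.Embed

set_option autoImplicit false

namespace Pool.Agent.H47.Odd

open Finset Classical SimpleGraph

variable {ι : Type*} {R : SimpleGraph ι}

/-- number of visits of a walk to `j`, not counting the endpoint -/
noncomputable def cnt {a b : ι} (p : R.Walk a b) (j : ι) : ℕ :=
  ((range p.length).filter fun t => p.getVert t = j).card

theorem cnt_le {a b : ι} (p : R.Walk a b) (j : ι) : cnt p j ≤ p.length := by
  unfold cnt
  exact (Finset.card_filter_le _ _).trans (by simp)

theorem cnt_nil (a j : ι) : cnt (Walk.nil : R.Walk a a) j = 0 := by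
  unfold cnt
  rw [Walk.length_nil, Finset.range_zero, Finset.filter_empty, Finset.card_empty]

theorem cnt_cons {a b c : ι} (h : R.Adj a b) (p : R.Walk b c) (j : ι) :
    cnt (Walk.cons h p) j = (if a = j then 1 else 0) + cnt p j := by
  unfold cnt
  rw [Walk.length_cons, Finset.range_add_one', Finset.filter_insert]
  have h1 : ((Finset.map ⟨fun i => i + 1, fun i j => by simp⟩ (range p.length)).filter
      fun t => (Walk.cons h p).getVert t = j).card
      = ((range p.length).filter fun t => p.getVert t = j).card := by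
    rw [Finset.filter_map, Finset.card_map]
    congr 1
  split_ifs with h2 h3 h3
  · rw [Finset.card_insert_of_notMem, h1, add_comm]
    simp
  · exact absurd (by simpa using h2) h3
  · exact absurd (by simpa using h3) h2
  · rw [h1, zero_add]

theorem cnt_append {a b c : ι} (p : R.Walk a b) (q : R.Walk b c) (j : ι) :
    cnt (p.append q) j = cnt p j + cnt q j := by
  induction p with
  | nil => simp [cnt_nil]
  | cons h p ih => rw [Walk.cons_append, cnt_cons, cnt_cons, ih]; ring

theorem insert_walk {a : ι} (p : R.Walk a a) {u v : ι} (hu : u ∈ p.support) (h : R.Adj u v) :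
    ∃ q : R.Walk a a, q.length = p.length + 2 ∧
      (∀ j, cnt q j = cnt p j + (if u = j then 1 else 0) + (if v = j then 1 else 0)) ∧
      ∀ x ∈ p.support, x ∈ q.support := by
  have hp : (p.takeUntil u hu).append (p.dropUntil u hu) = p := p.take_spec hu
  refine ⟨(p.takeUntil u hu).append (Walk.cons h (Walk.cons h.symm (p.dropUntil u hu))), ?_, ?_, ?_⟩
  · have := congrArg Walk.length hp
    rw [Walk.length_append] at this
    rw [Walk.length_append, Walk.length_cons, Walk.length_cons]
    omega
  · intro j
    have := congrArg (fun r => cnt r j) hp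
    simp only [cnt_append] at this
    rw [cnt_append, cnt_cons, cnt_cons]
    omega
  · intro x hx
    rw [← hp, Walk.mem_support_append_iff] at hx
    rw [Walk.mem_support_append_iff, Walk.support_cons, Walk.support_cons]
    rcases hx with hx | hx
    · exact Or.inl hx
    · right
      exact List.mem_cons_of_mem _ (List.mem_cons_of_mem _ hx)

theorem insert_many {a : ι} (k : ℕ) : ∀ (p : R.Walk a a) {u v : ι}, u ∈ p.support → R.Adj u v →
    ∃ q : R.Walk a a, q.length = p.length + 2 * k ∧
      (∀ j, cnt q j = cnt p j + (if u = j then k else 0) + (if v = j then k else 0)) ∧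
      ∀ x ∈ p.support, x ∈ q.support := by
  induction k with
  | zero => intro p u v _ _; exact ⟨p, by simp, by simp, fun x hx => hx⟩
  | succ k ih =>
    intro p u v hu h
    obtain ⟨q, h1, h2, h3⟩ := ih p hu h
    obtain ⟨r, h4, h5, h6⟩ := insert_walk q (h3 u hu) h
    refine ⟨r, by omega, ?_, fun x hx => h6 x (h3 x hx)⟩
    intro j
    rw [h5, h2]
    split_ifs <;> omega

theorem insert_family {a : ι} (φ : ι → ι) (t : ι → ℕ) (S : Finset ι) :
    ∀ (p : R.Walk a a), (∀ u ∈ S, u ∈ p.support) → (∀ u ∈ S, R.Adj u (φ u)) →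
    ∃ q : R.Walk a a, q.length = p.length + 2 * ∑ u ∈ S, t u ∧
      (∀ j, cnt q j = cnt p j + (∑ u ∈ S, if u = j then t u else 0)
        + (∑ u ∈ S, if φ u = j then t u else 0)) := by
  induction S using Finset.induction_on with
  | empty => intro p _ _; exact ⟨p, by simp, by simp⟩
  | insert b S hb ih =>
    intro p hS hφ
    obtain ⟨q, h1, h2, h3⟩ := insert_many (t b) p (hS b (Finset.mem_insert_self _ _))
      (hφ b (Finset.mem_insert_self _ _))
    obtain ⟨r, h4, h5⟩ := ih q (fun u hu => h3 u (hS u (Finset.mem_insert_of_mem hu)))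
      (fun u hu => hφ u (Finset.mem_insert_of_mem hu))
    refine ⟨r, ?_, ?_⟩
    · rw [h4, h1, Finset.sum_insert hb]; ring
    · intro j
      rw [h5, h2, Finset.sum_insert hb, Finset.sum_insert hb]
      ring

/-- choose the number of bounces -/
theorem exists_bounces (S : Finset ι) (τ : ℕ) : ∀ T : ℕ, T ≤ S.card * τ →
    ∃ t : ι → ℕ, (∀ u, t u ≤ τ) ∧ ∑ u ∈ S, t u = T := by
  induction S using Finset.induction_on with
  | empty =>
    intro T hT
    refine ⟨fun _ => 0, fun _ => Nat.zero_le _, ?_⟩
    simp at hT
    simp [hT]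
  | insert b S hb ih =>
    intro T hT
    rw [Finset.card_insert_of_notMem hb] at hT
    obtain ⟨t, ht1, ht2⟩ := ih (T - min T τ) (by
      rcases le_total T τ with h | h
      · rw [min_eq_left h]; simp
      · rw [min_eq_right h]
        have : (S.card + 1) * τ = S.card * τ + τ := by ring
        omega)
    refine ⟨fun u => if u = b then min T τ else t u, ?_, ?_⟩
    · intro u
      simp only
      split_ifs
      · exact min_le_right _ _
      · exact ht1 u
    · rw [Finset.sum_insert hb]
      simp only [if_true]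
      have : ∑ x ∈ S, (if x = b then min T τ else t x) = ∑ x ∈ S, t x := by
        apply Finset.sum_congr rfl
        intro x hx
        have : x ≠ b := fun h => hb (h ▸ hx)
        simp [this]
      rw [this, ht2]
      have := min_le_left T τ
      omega

/-- A closed walk of odd length visiting all of a finite set of reachable vertices. -/
theorem exists_closed [Fintype ι] {r a b c : ι} (hra : R.Reachable r a) (hab : R.Adj a b)
    (hbc : R.Adj b c) (hca : R.Adj c a) (S : Finset ι) (hS : ∀ u ∈ S, R.Reachable r u) :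
    ∃ p : R.Walk r r, Odd p.length ∧ p.length ≤ 2 * Fintype.card ι * (S.card + 1) + 3 ∧
      ∀ u ∈ S, u ∈ p.support := by
  -- short closed walk through a given vertex
  have hshort : ∀ u, R.Reachable r u → ∃ q : R.Walk r u, q.length ≤ Fintype.card ι := by
    intro u hu
    obtain ⟨q, hq⟩ := hu.exists_isPath
    exact ⟨q, hq.length_lt.le⟩
  induction S using Finset.induction_on with
  | empty =>
    obtain ⟨q, hq⟩ := hshort a hra
    refine ⟨(q.append (Walk.cons hab (Walk.cons hbc (Walk.cons hca Walk.nil)))).append q.reverse,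
      ?_, ?_, ?_⟩
    · rw [Walk.length_append, Walk.length_append, Walk.length_reverse]
      simp only [Walk.length_cons, Walk.length_nil]
      exact ⟨q.length + 1, by ring⟩
    · rw [Walk.length_append, Walk.length_append, Walk.length_reverse]
      simp only [Walk.length_cons, Walk.length_nil, Finset.card_empty]
      omega
    · intro u hu; simp at hu
  | insert d S hd ih =>
    obtain ⟨p, hp1, hp2, hp3⟩ := ih (fun u hu => hS u (Finset.mem_insert_of_mem hu))
    obtain ⟨q, hq⟩ := hshort d (hS d (Finset.mem_insert_self _ _))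
    refine ⟨(q.append q.reverse).append p, ?_, ?_, ?_⟩
    · rw [Walk.length_append, Walk.length_append, Walk.length_reverse]
      obtain ⟨k, hk⟩ := hp1
      exact ⟨q.length + k, by rw [hk]; ring⟩
    · rw [Walk.length_append, Walk.length_append, Walk.length_reverse,
        Finset.card_insert_of_notMem hd]
      have : 2 * Fintype.card ι * (S.card + 1 + 1) + 3
        = 2 * Fintype.card ι * (S.card + 1) + 3 + 2 * Fintype.card ι := by ring
      omega
    · intro u hu
      rw [Finset.mem_insert] at hu
      rw [Walk.mem_support_append_iff, Walk.mem_support_append_iff]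
      rcases hu with rfl | hu
      · left; left; exact q.end_mem_support
      · right; exact hp3 u hu

/-- Closed walks of all odd lengths with bounded number of visits. -/
theorem closed_walks [Fintype ι] {r a b c : ι} (hra : R.Reachable r a) (hab : R.Adj a b)
    (hbc : R.Adj b c) (hca : R.Adj c a) (S : Finset ι) (hS : ∀ u ∈ S, R.Reachable r u)
    (φ : ι → ι) (hφ : Set.InjOn φ S) (hφR : ∀ u ∈ S, R.Adj u (φ u)) (τ L : ℕ) (hodd : Odd L)
    (hL : 2 * Fintype.card ι * (S.card + 1) + 3 ≤ L) (hL2 : L ≤ 2 * (S.card * τ)) :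
    ∃ p : R.Walk r r, p.length = L ∧
      ∀ j, cnt p j ≤ 2 * Fintype.card ι * (S.card + 1) + 3 + 2 * τ := by
  obtain ⟨p, hp1, hp2, hp3⟩ := exists_closed hra hab hbc hca S hS
  obtain ⟨T, hT⟩ : ∃ T, L = p.length + 2 * T := by
    obtain ⟨m, hm⟩ := hp1
    obtain ⟨k, hk⟩ := hodd
    exact ⟨k - m, by omega⟩
  obtain ⟨t, ht1, ht2⟩ := exists_bounces S τ T (by omega)
  obtain ⟨q, hq1, hq2⟩ := insert_family φ t S p hp3 hφR
  refine ⟨q, by rw [hq1, ht2, hT], ?_⟩
  intro j
  rw [hq2]
  have h1 : cnt p j ≤ 2 * Fintype.card ι * (S.card + 1) + 3 := (cnt_le p j).trans hp2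
  have h2 : (∑ u ∈ S, if u = j then t u else 0) ≤ τ := by
    rw [Finset.sum_ite_eq']
    split_ifs
    · exact ht1 j
    · exact Nat.zero_le _
  have h3 : (∑ u ∈ S, if φ u = j then t u else 0) ≤ τ := by
    by_cases hex : ∃ u ∈ S, φ u = j
    · obtain ⟨u, hu, huj⟩ := hex
      rw [Finset.sum_eq_single_of_mem u hu]
      · rw [if_pos huj]; exact ht1 u
      · intro v hv hvu
        rw [if_neg]
        intro hvj
        exact hvu (hφ hv hu (hvj.trans huj.symm))
    · have : (∑ u ∈ S, if φ u = j then t u else 0) = 0 := by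
        apply Finset.sum_eq_zero
        intro u hu
        rw [if_neg]
        intro h
        exact hex ⟨u, hu, h⟩
      rw [this]; exact Nat.zero_le _
  omega

/-- Closed walks of small odd length around a triangle. -/
theorem triangle_walks {a b c : ι} (hab : R.Adj a b)
    (hbc : R.Adj b c) (hca : R.Adj c a) (L : ℕ) (hodd : Odd L) (hL : 3 ≤ L) :
    ∃ p : R.Walk a a, p.length = L := by
  obtain ⟨k, hk⟩ := hodd
  obtain ⟨q, h1, -, -⟩ := insert_many (k - 1)
    (Walk.cons hab (Walk.cons hbc (Walk.cons hca Walk.nil)) : R.Walk a a)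
    (Walk.start_mem_support _) hab
  refine ⟨q, ?_⟩
  rw [h1]
  simp only [Walk.length_cons, Walk.length_nil]
  omega

/-- A closed walk with bounded visits gives a cycle. -/
theorem embed_walk {α : Type*} {G : SimpleGraph α} {V : ι → Finset α} {e δ η : ℝ}
    (hcl : Clusters G R V e δ) (he : 0 < e) (hδ : 0 < δ) (hη : 0 < η) (heδ : e ≤ δ * η)
    (he2 : 2 * e ≤ 1) {r : ι} (p : R.Walk r r) (hL : 3 ≤ p.length)
    (hsize : ∀ i, δ * η * (V i).card + e * (V i).card + 1 ≤ δ * (V i).card)
    (hvis : ∀ i, (cnt p i : ℝ) + e * (V i).card + 1 + η * (V i).card ≤ (V i).card) :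
    SimpleGraph.IsContained (SimpleGraph.cycleGraph p.length) G := by
  apply embed hcl he hδ hη heδ he2 p.length hL p.getVert
  · intro t ht
    exact p.adj_getVert_succ ht
  · simp
  · intro t _; exact hsize _
  · intro t _; exact hvis _

end Pool.Agent.H47.Odd
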