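import Pool.Agent.H47.Odd.Near
import Pool.Agent.H47.Odd.Walks
import Pool.Agent.H47.Odd.Abc

set_option autoImplicit false

namespace Pool.Agent.H47.Odd

open Finset Classical SimpleGraph

variable {α : Type*} [Fintype α]

/-- number of edges lost in passing to the reduced graph -/
theorem removed_card {G : SimpleGraph α} [Nonempty α] {P : Finpartition (univ : Finset α)}
    (hP : P.IsEquipartition) {ε1 ε' d : ℝ} (h1 : 0 < ε1) (h' : 0 < ε') (hd : 0 ≤ d)
    (hU : P.IsUniform G ε1) (hk : 4 / ε' ≤ (P.parts.card : ℝ))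
    (G' : SimpleGraph α) (hG' : G' = G.regularityReduced P ε1 d) :
    (((Finset.univ.filter fun p : α × α =>
      G.Adj p.1 p.2 ∧ ¬ G'.Adj p.1 p.2).card : ℕ) : ℝ)
      ≤ (4 * ε1 + ε' / 2 + 4 * d) * (Fintype.card α : ℝ) ^ 2 := by
  set A := (P.nonUniforms G ε1).biUnion fun (U, V) ↦ U ×ˢ V with hA
  set B := P.parts.biUnion offDiag with hB
  set C := (P.sparsePairs G d).biUnion fun (U, V) ↦ G.interedges U V with hC
  have hsub : (Finset.univ.filter fun p : α × α =>
      G.Adj p.1 p.2 ∧ ¬ G'.Adj p.1 p.2) ⊆ A ∪ B ∪ C := by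
    rintro ⟨x, y⟩
    rw [hG']
    simp only [hA, hB, hC, mem_filter, regularityReduced_adj, not_and, not_exists,
      not_le, mem_biUnion, mem_union, mem_product, Prod.exists, mem_offDiag, and_imp,
      or_assoc, and_assoc, P.mk_mem_nonUniforms, Finpartition.mk_mem_sparsePairs,
      mem_interedges_iff]
    intro _ h h'
    replace h' := h' h
    obtain ⟨U, hU, hx⟩ := P.exists_mem (mem_univ x)
    obtain ⟨V, hV, hy⟩ := P.exists_mem (mem_univ y)
    obtain rfl | hUV := eq_or_ne U V
    · exact Or.inr (Or.inl ⟨U, hU, hx, hy, G.ne_of_adj h⟩)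
    by_cases h₂ : G.IsUniform ε1 U V
    · exact Or.inr <| Or.inr ⟨U, V, hU, hV, hUV, h' _ hU _ hV hx hy hUV h₂, hx, hy, h⟩
    · exact Or.inl ⟨U, V, hU, hV, hUV, h₂, hx, hy⟩
  have k1 := hP.sum_nonUniforms_lt univ_nonempty h1 hU
  have k2 := hP.card_biUnion_offDiag_le h' hk
  have k3 := hP.card_interedges_sparsePairs_le (G := G) hd
  rw [Finset.card_univ] at k1 k2 k3
  have k4 := Finset.card_le_card hsub
  have k5 := Finset.card_union_le (A ∪ B) C
  have k6 := Finset.card_union_le A B
  have k7 : (((Finset.univ.filter fun p : α × α =>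
      G.Adj p.1 p.2 ∧ ¬ G'.Adj p.1 p.2).card : ℕ) : ℝ)
      ≤ (A.card : ℝ) + B.card + C.card := by
    exact_mod_cast k4.trans (k5.trans (Nat.add_le_add_right k6 _))
  have k1' : (A.card : ℝ) < 4 * ε1 * (Fintype.card α : ℝ) ^ 2 := k1
  have k2' : (B.card : ℝ) ≤ ε' / 2 * (Fintype.card α : ℝ) ^ 2 := k2
  have k3' : (C.card : ℝ) ≤ 4 * d * (Fintype.card α : ℝ) ^ 2 := k3
  nlinarith

/-- the cluster graph -/
def clusterGraph (G : SimpleGraph α) (P : Finpartition (univ : Finset α)) (ε1 d : ℝ) :
    SimpleGraph {s // s ∈ P.parts} where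
  Adj U V := (U : Finset α) ≠ V ∧ G.IsUniform ε1 (U : Finset α) (V : Finset α) ∧
    d ≤ (G.edgeDensity (U : Finset α) (V : Finset α) : ℝ)
  symm := ⟨fun U V h => ⟨h.1.symm, h.2.1.symm, by rw [edgeDensity_comm]; exact h.2.2⟩⟩
  loopless := ⟨fun U h => h.1 rfl⟩

omit [Fintype α] in
theorem card_interedges_eq (G : SimpleGraph α) (X B : Finset α) :
    (G.interedges X B).card = ∑ x ∈ X, (B.filter fun b => G.Adj x b).card := by
  unfold SimpleGraph.interedges Rel.interedges
  rw [Finset.card_filter, Finset.sum_product]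
  apply Finset.sum_congr rfl
  intro x _
  rw [Finset.card_filter]

theorem clusters (G : SimpleGraph α) (P : Finpartition (univ : Finset α)) {ε1 d : ℝ}
    (h1 : 0 < ε1) :
    Clusters G (clusterGraph G P ε1 d) (fun U => (U : Finset α)) ε1 (d - ε1) := by
  constructor
  · intro i j hij
    exact P.disjoint i.2 j.2 (fun h => hij (Subtype.ext h))
  · intro i j hij B hB hBc
    by_contra hcon
    push Not at hcon
    set X := ((i : Finset α).filter fun x => ((B.filter fun b => G.Adj x b).card : ℝ)
      < (d - ε1) * B.card) with hX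
    obtain ⟨hne, hunif, hdens⟩ := hij
    have hu := hunif (s' := X) (Finset.filter_subset _ _) (t' := B) hB
      (by rw [mul_comm]; exact hcon) (by rw [mul_comm]; exact hBc)
    have hipos : 0 < (i : Finset α).card := (P.nonempty_of_mem_parts i.2).card_pos
    have hjpos : 0 < (j : Finset α).card := (P.nonempty_of_mem_parts j.2).card_pos
    have hXpos : (0 : ℝ) < X.card := by
      refine lt_of_lt_of_le ?_ hcon
      have : (0 : ℝ) < (i : Finset α).card := by exact_mod_cast hipos
      positivity
    have hBpos : (0 : ℝ) < B.card := by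
      refine lt_of_lt_of_le ?_ hBc
      have : (0 : ℝ) < (j : Finset α).card := by exact_mod_cast hjpos
      positivity
    rw [abs_lt] at hu
    have h3 : d - ε1 < (G.edgeDensity X B : ℝ) := by linarith [hu.1]
    have h4 : (G.edgeDensity X B : ℝ) = ((G.interedges X B).card : ℝ) / (X.card * B.card) := by
      unfold SimpleGraph.edgeDensity Rel.edgeDensity SimpleGraph.interedges
      push_cast
      rfl
    rw [h4, lt_div_iff₀ (mul_pos hXpos hBpos), card_interedges_eq] at h3
    push_cast at h3
    have h5 : ∑ x ∈ X, ((B.filter fun b => G.Adj x b).card : ℝ) < ∑ x ∈ X, (d - ε1) * B.card := by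
      apply Finset.sum_lt_sum_of_nonempty
      · rw [← Finset.card_pos]; exact_mod_cast hXpos
      · intro x hx
        rw [hX, Finset.mem_filter] at hx
        exact hx.2
    rw [Finset.sum_const, nsmul_eq_mul] at h5
    linarith

/-- Splitting the quadratic form along a map which is constant on edges. -/
theorem split_sum {κ : Type*} [Fintype κ] (H : SimpleGraph α) (f : α → κ)
    (hf : ∀ u v, H.Adj u v → f u = f v) (y : α → ℝ) :
    Q H y = ∑ c, Q H (fun u => if f u = c then y u else 0) ∧
    N y = ∑ c, N (fun u => if f u = c then y u else 0) := by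
  constructor
  · unfold Q
    conv_rhs => rw [Finset.sum_comm]
    apply Finset.sum_congr rfl; intro u _
    conv_rhs => rw [Finset.sum_comm]
    apply Finset.sum_congr rfl; intro v _
    by_cases h : H.Adj u v
    · simp only [h, if_true]
      rw [← hf u v h]
      simp
    · simp [h]
  · unfold N
    conv_rhs => rw [Finset.sum_comm]
    apply Finset.sum_congr rfl; intro u _
    simp

theorem exists_comp {κ : Type*} [Fintype κ] (H : SimpleGraph α) (f : α → κ)
    (hf : ∀ u v, H.Adj u v → f u = f v) (y : α → ℝ) (L : ℝ) (hN : 0 < N y)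
    (h : L * N y ≤ Q H y) :
    ∃ c, 0 < N (fun u => if f u = c then y u else 0) ∧
      L * N (fun u => if f u = c then y u else 0) ≤ Q H (fun u => if f u = c then y u else 0) := by
  by_contra hcon
  push Not at hcon
  obtain ⟨h1, h2⟩ := split_sum H f hf y
  have h3 : ∀ c, Q H (fun u => if f u = c then y u else 0) ≤
      L * N (fun u => if f u = c then y u else 0) := by
    intro c
    rcases (N_nonneg (fun u => if f u = c then y u else 0)).lt_or_eq with h4 | h4
    · exact (hcon c h4).le
    · have h5 := abs_Q_le H (fun u => if f u = c then y u else 0)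
      rw [← h4, mul_zero] at h5
      rw [← h4, mul_zero]
      exact (le_abs_self _).trans h5
  have h4 : ∃ c ∈ (Finset.univ : Finset κ), 0 < N (fun u => if f u = c then y u else 0) := by
    by_contra hno
    push Not at hno
    rw [h2] at hN
    have := Finset.sum_nonpos hno
    linarith
  obtain ⟨c, hc, hcpos⟩ := h4
  have h5 : ∑ c, Q H (fun u => if f u = c then y u else 0) <
      ∑ c, L * N (fun u => if f u = c then y u else 0) := by
    apply Finset.sum_lt_sum
    · intro c _; exact h3 c
    · exact ⟨c, hc, hcon c hcpos⟩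
  rw [← h1, ← Finset.mul_sum, ← h2] at h5
  linarith

end Pool.Agent.H47.Odd
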