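import Mathlib

set_option autoImplicit false

namespace Pool.Agent.H47.Odd

open Finset Classical

variable {α : Type*} [Fintype α]

/-- The largest eigenvalue of the adjacency matrix of `G`. -/
noncomputable def mu (G : SimpleGraph α) : ℝ :=
  sSup {x : ℝ | Module.End.HasEigenvalue (Matrix.toLin' (G.adjMatrix ℝ)) x}

/-- The quadratic form of the adjacency matrix. -/
noncomputable def Q (G : SimpleGraph α) (x : α → ℝ) : ℝ :=
  ∑ u, ∑ v, if G.Adj u v then x u * x v else 0

/-- squared norm -/
noncomputable def N (x : α → ℝ) : ℝ := ∑ u, x u ^ 2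

theorem N_nonneg (x : α → ℝ) : 0 ≤ N x := Finset.sum_nonneg fun _ _ => sq_nonneg _

theorem Q_eq (G : SimpleGraph α) (x : α → ℝ) :
    Q G x = inner ℝ ((Matrix.toEuclideanLin (G.adjMatrix ℝ)) (WithLp.toLp 2 x)) (WithLp.toLp 2 x) := by
  unfold Q
  rw [PiLp.inner_apply]
  apply Finset.sum_congr rfl
  intro u _
  rw [Matrix.toLpLin_apply]
  simp only [Matrix.mulVec, dotProduct, SimpleGraph.adjMatrix_apply, RCLike.inner_apply, conj_trivial]
  rw [Finset.mul_sum]
  apply Finset.sum_congr rfl
  intro v _
  split_ifs <;> simp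

theorem N_eq (x : α → ℝ) : N x = ‖(WithLp.toLp 2 x : EuclideanSpace ℝ α)‖ ^ 2 := by
  rw [EuclideanSpace.norm_sq_eq]
  unfold N
  simp

theorem abs_Q_le (G : SimpleGraph α) (x : α → ℝ) : |Q G x| ≤ (Fintype.card α) * N x := by
  unfold Q N
  calc |∑ u, ∑ v, if G.Adj u v then x u * x v else 0|
      ≤ ∑ u, ∑ v, |if G.Adj u v then x u * x v else 0| := by
        refine (Finset.abs_sum_le_sum_abs _ _).trans ?_
        exact Finset.sum_le_sum fun u _ => Finset.abs_sum_le_sum_abs _ _
    _ ≤ ∑ u : α, ∑ v : α, (x u ^ 2 / 2 + x v ^ 2 / 2) := by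
        apply Finset.sum_le_sum; intro u _
        apply Finset.sum_le_sum; intro v _
        split_ifs
        · rw [abs_le]; constructor <;> nlinarith [sq_nonneg (x u - x v), sq_nonneg (x u + x v)]
        · rw [abs_zero]; positivity
    _ = (Fintype.card α) * ∑ u, x u ^ 2 := by
        simp only [Finset.sum_add_distrib, Finset.sum_const, Finset.card_univ, nsmul_eq_mul,
          ← Finset.sum_div, ← Finset.mul_sum]
        ring

theorem isSymm (G : SimpleGraph α) : (Matrix.toEuclideanLin (G.adjMatrix ℝ)).IsSymmetric := by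
  rw [Matrix.isSymmetric_toEuclideanLin_iff]
  exact G.isSymm_adjMatrix  (α := ℝ)

theorem hasEig_iff (G : SimpleGraph α) (x : ℝ) :
    Module.End.HasEigenvalue (Matrix.toLin' (G.adjMatrix ℝ)) x ↔
    Module.End.HasEigenvalue (Matrix.toEuclideanLin (G.adjMatrix ℝ)) x := by
  constructor
  · intro h
    obtain ⟨v, hv⟩ := h.exists_hasEigenvector
    apply Module.End.hasEigenvalue_of_hasEigenvector (x := WithLp.toLp 2 v)
    refine ⟨?_, ?_⟩
    · rw [Module.End.mem_eigenspace_iff]
      have := hv.apply_eq_smul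
      rw [Matrix.toLpLin_apply]
      rw [Matrix.toLin'_apply] at this
      simp [this]
    · intro h0
      apply hv.2
      simpa using h0
  · intro h
    obtain ⟨v, hv⟩ := h.exists_hasEigenvector
    apply Module.End.hasEigenvalue_of_hasEigenvector (x := v.ofLp)
    refine ⟨?_, ?_⟩
    · rw [Module.End.mem_eigenspace_iff]
      have := hv.apply_eq_smul
      rw [Matrix.toLpLin_apply] at this
      rw [Matrix.toLin'_apply]
      have h2 := congrArg WithLp.ofLp this
      simpa using h2
    · intro h0
      apply hv.2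
      ext i
      have := congrFun h0 i
      simpa using this

/-- `mu G` is the greatest eigenvalue, and it bounds the quadratic form. -/
theorem mu_spec [Nonempty α] (G : SimpleGraph α) :
    IsGreatest {x : ℝ | Module.End.HasEigenvalue (Matrix.toLin' (G.adjMatrix ℝ)) x} (mu G) ∧
    ∀ x : α → ℝ, Q G x ≤ mu G * N x := by
  have hT := isSymm G
  have hE := hT.hasEigenvalue_iSup_of_finiteDimensional
  set L : ℝ := ⨆ x : { x : EuclideanSpace ℝ α // x ≠ 0 },
    RCLike.re (inner ℝ ((Matrix.toEuclideanLin (G.adjMatrix ℝ)) (x : EuclideanSpace ℝ α))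
      (x : EuclideanSpace ℝ α)) / ‖(x : EuclideanSpace ℝ α)‖ ^ 2 with hL
  have hval : ∀ x : { x : EuclideanSpace ℝ α // x ≠ 0 },
      RCLike.re (inner ℝ ((Matrix.toEuclideanLin (G.adjMatrix ℝ)) (x : EuclideanSpace ℝ α))
      (x : EuclideanSpace ℝ α)) / ‖(x : EuclideanSpace ℝ α)‖ ^ 2
      = Q G (x : EuclideanSpace ℝ α).ofLp / N (x : EuclideanSpace ℝ α).ofLp := by
    intro x
    rw [Q_eq, N_eq]
    simp
  have hbdd : BddAbove (Set.range fun x : { x : EuclideanSpace ℝ α // x ≠ 0 } =>
      RCLike.re (inner ℝ ((Matrix.toEuclideanLin (G.adjMatrix ℝ)) (x : EuclideanSpace ℝ α))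
      (x : EuclideanSpace ℝ α)) / ‖(x : EuclideanSpace ℝ α)‖ ^ 2) := by
    refine ⟨Fintype.card α, ?_⟩
    rintro _ ⟨x, rfl⟩
    simp only
    rw [hval]
    have hpos : 0 < N (x : EuclideanSpace ℝ α).ofLp := by
      rw [N_eq]
      have : ‖(x : EuclideanSpace ℝ α)‖ ≠ 0 := norm_ne_zero_iff.mpr x.2
      positivity
    rw [div_le_iff₀ hpos]
    exact (le_abs_self _).trans (abs_Q_le G _)
  have hQ : ∀ x : α → ℝ, Q G x ≤ L * N x := by
    intro x
    by_cases hx : (WithLp.toLp 2 x : EuclideanSpace ℝ α) = 0
    · have hx' : x = 0 := by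
        ext i
        have := congrFun (congrArg WithLp.ofLp hx) i
        simpa using this
      subst hx'
      simp [Q, N]
    · have h1 := le_ciSup hbdd ⟨_, hx⟩
      rw [← hL] at h1
      simp only at h1
      rw [hval ⟨_, hx⟩] at h1
      have hpos : 0 < N x := by
        rw [N_eq]
        have : ‖(WithLp.toLp 2 x : EuclideanSpace ℝ α)‖ ≠ 0 := norm_ne_zero_iff.mpr hx
        positivity
      rw [div_le_iff₀ hpos] at h1
      exact h1
  have hgr : IsGreatest {x : ℝ | Module.End.HasEigenvalue (Matrix.toLin' (G.adjMatrix ℝ)) x} L := by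
    constructor
    · rw [Set.mem_ofPred_eq, hasEig_iff]
      exact hE
    · intro e he
      rw [Set.mem_ofPred_eq] at he
      obtain ⟨v, hv⟩ := he.exists_hasEigenvector
      have h1 := hv.apply_eq_smul
      rw [Matrix.toLin'_apply] at h1
      have h2 : Q G v = e * N v := by
        unfold Q N
        rw [Finset.mul_sum]
        apply Finset.sum_congr rfl
        intro u _
        have h3 := congrFun h1 u
        simp only [Matrix.mulVec, dotProduct, SimpleGraph.adjMatrix_apply, Pi.smul_apply,
          smul_eq_mul] at h3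
        have h4 : (∑ w, if G.Adj u w then v u * v w else 0) = v u * (e * v u) := by
          rw [← h3, Finset.mul_sum]
          apply Finset.sum_congr rfl
          intro w _
          split_ifs <;> simp
        rw [h4]; ring
      have h5 := hQ v
      rw [h2] at h5
      have hpos : 0 < N v := by
        rcases (N_nonneg v).lt_or_eq with h | h
        · exact h
        · exfalso
          apply hv.2
          ext i
          have h6 : ∑ u, v u ^ 2 = 0 := h.symm
          rw [Finset.sum_eq_zero_iff_of_nonneg (fun _ _ => sq_nonneg _)] at h6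
          simpa using h6 i (Finset.mem_univ i)
      exact le_of_mul_le_mul_right h5 hpos
  have hmu : mu G = L := hgr.csSup_eq
  rw [hmu]
  exact ⟨hgr, hQ⟩

theorem Q_le [Nonempty α] (G : SimpleGraph α) (x : α → ℝ) : Q G x ≤ mu G * N x := (mu_spec G).2 x

/-- A nonnegative unit vector realizing `mu G`. -/
theorem exists_vec [Nonempty α] (G : SimpleGraph α) :
    ∃ y : α → ℝ, (∀ i, 0 ≤ y i) ∧ N y = 1 ∧ mu G ≤ Q G y := by
  obtain ⟨v, hv⟩ := (mu_spec G).1.1.exists_hasEigenvector
  have h1 := hv.apply_eq_smul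
  rw [Matrix.toLin'_apply] at h1
  have h2 : Q G v = mu G * N v := by
    unfold Q N
    rw [Finset.mul_sum]
    apply Finset.sum_congr rfl
    intro u _
    have h3 := congrFun h1 u
    simp only [Matrix.mulVec, dotProduct, SimpleGraph.adjMatrix_apply, Pi.smul_apply,
      smul_eq_mul] at h3
    have h4 : (∑ w, if G.Adj u w then v u * v w else 0) = v u * (mu G * v u) := by
      rw [← h3, Finset.mul_sum]
      apply Finset.sum_congr rfl
      intro w _
      split_ifs <;> simp
    rw [h4]; ring
  have hpos : 0 < N v := by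
    rcases (N_nonneg v).lt_or_eq with h | h
    · exact h
    · exfalso
      apply hv.2
      ext i
      have h6 : ∑ u, v u ^ 2 = 0 := h.symm
      rw [Finset.sum_eq_zero_iff_of_nonneg (fun _ _ => sq_nonneg _)] at h6
      simpa using h6 i (Finset.mem_univ i)
  have hs : 0 < √(N v) := Real.sqrt_pos.mpr hpos
  refine ⟨fun i => |v i| / √(N v), fun i => by positivity, ?_, ?_⟩
  · unfold N
    simp only [div_pow, sq_abs]
    rw [← Finset.sum_div]
    change N v / √(N v) ^ 2 = 1
    rw [Real.sq_sqrt (N_nonneg v)]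
    exact div_self hpos.ne'
  · have h3 : Q G (fun i => |v i| / √(N v)) = Q G (fun i => |v i|) / N v := by
      unfold Q
      rw [Finset.sum_div]
      apply Finset.sum_congr rfl
      intro u _
      rw [Finset.sum_div]
      apply Finset.sum_congr rfl
      intro w _
      split_ifs
      · rw [div_mul_div_comm, Real.mul_self_sqrt (N_nonneg v)]
      · simp
    rw [h3, le_div_iff₀ hpos, ← h2]
    unfold Q
    apply Finset.sum_le_sum; intro u _
    apply Finset.sum_le_sum; intro w _
    split_ifs
    · rw [← abs_mul]; exact le_abs_self _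
    · exact le_refl _

/-- Schur test with weights. -/
theorem schur (H : SimpleGraph α) (p : α → ℝ) (hp : ∀ u, 0 < p u) (L : ℝ)
    (h : ∀ u, (∑ v, if H.Adj u v then p v else 0) ≤ L * p u) (y : α → ℝ) :
    Q H y ≤ L * N y := by
  have h1 : Q H y ≤ ∑ u, ∑ v, if H.Adj u v then
      (p v / p u * y u ^ 2 / 2 + p u / p v * y v ^ 2 / 2) else 0 := by
    unfold Q
    apply Finset.sum_le_sum; intro u _
    apply Finset.sum_le_sum; intro v _
    split_ifs
    · have hu := hp u
      have hv := hp v
      have h2 : p v / p u * y u ^ 2 / 2 + p u / p v * y v ^ 2 / 2 - y u * y v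
          = (p v * y u - p u * y v) ^ 2 / (2 * p u * p v) := by
        field_simp; ring
      have h3 : 0 ≤ (p v * y u - p u * y v) ^ 2 / (2 * p u * p v) := by positivity
      linarith
    · exact le_refl _
  have h2 : (∑ u, ∑ v, if H.Adj u v then
      (p v / p u * y u ^ 2 / 2 + p u / p v * y v ^ 2 / 2) else 0)
      = ∑ u, (y u ^ 2 / p u) * ∑ v, if H.Adj u v then p v else 0 := by
    have e1 : (∑ u, ∑ v, if H.Adj u v then
      (p v / p u * y u ^ 2 / 2 + p u / p v * y v ^ 2 / 2) else 0)
      = (∑ u, ∑ v, if H.Adj u v then p v / p u * y u ^ 2 / 2 else 0)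
      + (∑ u, ∑ v, if H.Adj u v then p u / p v * y v ^ 2 / 2 else 0) := by
      rw [← Finset.sum_add_distrib]
      apply Finset.sum_congr rfl; intro u _
      rw [← Finset.sum_add_distrib]
      apply Finset.sum_congr rfl; intro v _
      split_ifs <;> simp
    have e2 : (∑ u, ∑ v, if H.Adj u v then p u / p v * y v ^ 2 / 2 else 0)
       = (∑ u, ∑ v, if H.Adj u v then p v / p u * y u ^ 2 / 2 else 0) := by
      rw [Finset.sum_comm]
      apply Finset.sum_congr rfl; intro u _
      apply Finset.sum_congr rfl; intro v _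
      simp only [H.adj_comm]
    rw [e1, e2, ← Finset.sum_add_distrib]
    apply Finset.sum_congr rfl; intro u _
    rw [← Finset.sum_add_distrib, Finset.mul_sum]
    apply Finset.sum_congr rfl; intro v _
    split_ifs <;> ring
  rw [h2] at h1
  refine h1.trans ?_
  unfold N
  rw [Finset.mul_sum]
  apply Finset.sum_le_sum; intro u _
  have hu := hp u
  calc (y u ^ 2 / p u) * ∑ v, (if H.Adj u v then p v else 0)
      ≤ (y u ^ 2 / p u) * (L * p u) := by
        apply mul_le_mul_of_nonneg_left (h u) (by positivity)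
    _ = L * y u ^ 2 := by field_simp

/-- If the quadratic form is large then some vertex has many 2-walks. -/
theorem exists_walk2 (H : SimpleGraph α) (y : α → ℝ) (L : ℝ) (hL : 0 ≤ L) (hN : 0 < N y)
    (h : L * N y ≤ Q H y) : ∃ v, L ^ 2 ≤ ∑ u, if H.Adj v u then (H.degree u : ℝ) else 0 := by
  by_contra hcon
  push Not at hcon
  -- z = A y
  set z : α → ℝ := fun u => ∑ v, if H.Adj u v then y v else 0 with hz
  have hQ : Q H y = ∑ u, y u * z u := by
    unfold Q
    apply Finset.sum_congr rfl; intro u _
    rw [hz]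
    simp only
    rw [Finset.mul_sum]
    apply Finset.sum_congr rfl; intro v _
    split_ifs <;> simp
  have hCS : (Q H y) ^ 2 ≤ N y * N z := by
    rw [hQ]
    exact Finset.sum_mul_sq_le_sq_mul_sq _ _ _
  have hdeg : ∀ w : α, (H.degree w : ℝ) = ∑ v, if H.Adj w v then (1 : ℝ) else 0 := by
    intro w
    rw [← SimpleGraph.card_neighborFinset_eq_degree, Finset.sum_ite, Finset.sum_const_zero,
      add_zero, Finset.sum_const, nsmul_eq_mul, mul_one]
    congr 2
    ext v
    simp
  have hz2 : ∀ w, z w ^ 2 ≤ (H.degree w : ℝ) * ∑ v, if H.Adj w v then y v ^ 2 else 0 := by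
    intro w
    have h1 : z w = ∑ v, (if H.Adj w v then (1 : ℝ) else 0) * (if H.Adj w v then y v else 0) := by
      rw [hz]
      apply Finset.sum_congr rfl; intro v _
      split_ifs <;> simp
    rw [h1]
    refine (Finset.sum_mul_sq_le_sq_mul_sq _ _ _).trans (le_of_eq ?_)
    congr 1
    · rw [hdeg w]
      apply Finset.sum_congr rfl; intro v _
      split_ifs <;> simp
    · apply Finset.sum_congr rfl; intro v _
      split_ifs <;> simp
  have hNz : N z ≤ ∑ v, y v ^ 2 * ∑ u, if H.Adj v u then (H.degree u : ℝ) else 0 := by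
    unfold N
    calc ∑ u, z u ^ 2 ≤ ∑ u, (H.degree u : ℝ) * ∑ v, (if H.Adj u v then y v ^ 2 else 0) :=
          Finset.sum_le_sum fun u _ => hz2 u
      _ = ∑ u, ∑ v, if H.Adj u v then (H.degree u : ℝ) * y v ^ 2 else 0 := by
          apply Finset.sum_congr rfl; intro u _
          rw [Finset.mul_sum]
          apply Finset.sum_congr rfl; intro v _
          split_ifs <;> simp
      _ = ∑ v, ∑ u, if H.Adj u v then (H.degree u : ℝ) * y v ^ 2 else 0 := Finset.sum_comm
      _ = _ := by
          apply Finset.sum_congr rfl; intro v _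
          rw [Finset.mul_sum]
          apply Finset.sum_congr rfl; intro u _
          simp only [H.adj_comm u v]
          split_ifs
          · ring
          · simp
  have hlt : N z < L ^ 2 * N y := by
    refine hNz.trans_lt ?_
    unfold N
    rw [Finset.mul_sum]
    have hex : ∃ v ∈ (Finset.univ : Finset α), 0 < y v ^ 2 := by
      by_contra hno
      push Not at hno
      have : N y ≤ 0 := Finset.sum_nonpos fun v hv => hno v hv
      linarith
    obtain ⟨v, hv, hvpos⟩ := hex
    apply Finset.sum_lt_sum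
    · intro u _
      rw [mul_comm (L ^ 2)]
      exact mul_le_mul_of_nonneg_left (hcon u).le (sq_nonneg _)
    · refine ⟨v, hv, ?_⟩
      rw [mul_comm (L ^ 2)]
      exact mul_lt_mul_of_pos_left (hcon v) hvpos
  have h2 : (L * N y) ^ 2 ≤ (Q H y) ^ 2 :=
    pow_le_pow_left₀ (mul_nonneg hL hN.le) h 2
  have h3 : N y * N z < N y * (L ^ 2 * N y) := mul_lt_mul_of_pos_left hlt hN
  have h4 : (L * N y) ^ 2 = N y * (L ^ 2 * N y) := by ring
  linarith

end Pool.Agent.H47.Odd
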