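import Pool.Agent.H47.Odd.Main

set_option autoImplicit false

namespace Pool.Agent.H47.Odd

open Finset Classical SimpleGraph SzemerediRegularity

theorem upper_bound (η0 : ℝ) (hη0 : 0 < η0) (hη0' : η0 ≤ 1 / 10) :
    ∃ n0 : ℕ, ∀ (α : Type) [Fintype α], n0 ≤ Fintype.card α → ∀ (G : SimpleGraph α) (l : ℕ),
      Odd l → 3 ≤ l → (l : ℝ) ≤ (c0 - η0) * Fintype.card α →
      ¬ SimpleGraph.IsContained (SimpleGraph.cycleGraph l) G →
      mu G ≤ √(((Fintype.card α) ^ 2 / 4 : ℕ) : ℝ) := by
  set κ : ℝ := η0 / 100000 with hκ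
  have hκpos : 0 < κ := by rw [hκ]; positivity
  have hκle : κ ≤ 1 / 1000000 := by rw [hκ]; linarith
  set ζ : ℝ := κ ^ 2 / 4 with hζ
  have hζpos : 0 < ζ := by rw [hζ]; positivity
  have hζle : ζ ≤ 1 := by rw [hζ]; nlinarith
  set d : ℝ := ζ / 16 with hd
  have hdpos : 0 < d := by rw [hd]; positivity
  have hdle : d ≤ 1 := by rw [hd]; linarith
  set ε' : ℝ := ζ / 2 with hε'
  have hε'pos : 0 < ε' := by rw [hε']; positivity
  set ε1 : ℝ := d * (η0 / 12) / 4 with hε1
  have hε1pos : 0 < ε1 := by rw [hε1]; positivity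
  set l0 : ℕ := ⌈4 / ε'⌉₊ with hl0
  set M : ℕ := bound ε1 l0 with hM
  obtain ⟨X, hX⟩ := exists_nat_ge (max ((2 * (M : ℝ) * (M + 1) + 4) * (12 / η0))
    (max (4 / d) (12 / η0)))
  have hXa : 2 * (M : ℝ) * (M + 1) + 4 ≤ (η0 / 12) * X := by
    have h1 := (le_max_left _ _).trans hX
    have h2 := mul_le_mul_of_nonneg_left h1 (show 0 ≤ η0 / 12 by positivity)
    have h3 : η0 / 12 * ((2 * (M : ℝ) * (M + 1) + 4) * (12 / η0)) = 2 * (M : ℝ) * (M + 1) + 4 := by
      field_simp
    linarith
  have hXb : 4 ≤ d * X := by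
    have h1 := ((le_max_left _ _).trans (le_max_right _ _)).trans hX
    rw [div_le_iff₀ hdpos] at h1
    linarith
  have hXc : 12 ≤ η0 * X := by
    have h1 := ((le_max_right _ _).trans (le_max_right _ _)).trans hX
    rw [div_le_iff₀ hη0] at h1
    linarith
  obtain ⟨n1, hn1⟩ := exists_nat_ge (1 / (2 * κ))
  refine ⟨M * (X + 1) + l0 + n1 + 10000, ?_⟩
  intro α _ hn G l hodd hl3 hl hfree
  set n := Fintype.card α with hndef
  have hn10 : 10000 ≤ n := by omega
  have hl0n : l0 ≤ n := by omega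
  have hMn : M * (X + 1) ≤ n := by omega
  have hn1n : n1 ≤ n := by omega
  have hnr : (10000 : ℝ) ≤ n := by exact_mod_cast hn10
  have hne : Nonempty α := by
    rw [← Fintype.card_pos_iff]; omega
  by_contra hcon
  push Not at hcon
  obtain ⟨y, hy0, hy1, hyQ⟩ := exists_vec G
  have hgt : √((n ^ 2 / 4 : ℕ) : ℝ) < Q G y := lt_of_lt_of_le hcon hyQ
  by_cases hl35 : l = 3
  · -- triangle-free
    subst hl35
    have h1 := TF G Finset.univ (fun u v _ => Finset.mem_univ _) (by
      intro u v w huv hvw huw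
      apply hfree
      apply cyc_of_fun G 3 (le_refl _) (fun i => if i = 0 then u else if i = 1 then v else w)
      · intro i hi j hj hij
        have huv' := huv.ne
        have hvw' := hvw.ne
        have huw' := huw.ne
        interval_cases i <;> interval_cases j <;> simp_all
      · intro i hi
        have : i = 0 ∨ i = 1 := by omega
        rcases this with rfl | rfl
        · simpa using huv
        · simpa using hvw
      · simpa using huw.symm) y
    rw [hy1, mul_one, Finset.card_univ] at h1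
    linarith
  have hl5 : 5 ≤ l := by
    obtain ⟨k, hk⟩ := hodd
    omega
  have hc := c0_bounds
  -- regularity
  obtain ⟨P, hP1, hP2, hP3, hP4⟩ := szemeredi_regularity G hε1pos hl0n
  have hk4 : 4 / ε' ≤ (P.parts.card : ℝ) := by
    refine (Nat.le_ceil _).trans ?_
    exact_mod_cast hP2
  obtain ⟨G', hG'⟩ : ∃ G' : SimpleGraph α, G' = G.regularityReduced P ε1 d := ⟨_, rfl⟩
  have hG'le : G' ≤ G := by rw [hG']; exact regularityReduced_le
  have hrem := removed_card (G := G) (d := d) hP1 hε1pos hε'pos hdpos.le hP4 hk4 G' hG'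
  have hrem2 : (4 * ε1 + ε' / 2 + 4 * d) * (n : ℝ) ^ 2 ≤ (κ / 2 * n) ^ 2 := by
    have h1 : 4 * ε1 + ε' / 2 + 4 * d ≤ ζ := by
      rw [hε1, hε', hd]
      nlinarith
    have h2 : (κ / 2 * n) ^ 2 = ζ * (n : ℝ) ^ 2 := by rw [hζ]; ring
    rw [h2]
    exact mul_le_mul_of_nonneg_right h1 (sq_nonneg _)
  have hpert := perturb G G' hG'le y
  rw [hy1, mul_one] at hpert
  have hsq : √(((Finset.univ.filter fun p : α × α => G.Adj p.1 p.2 ∧
      ¬ G'.Adj p.1 p.2).card : ℕ) : ℝ) ≤ κ / 2 * n := by
    rw [Real.sqrt_le_left (by positivity)]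
    exact hrem.trans hrem2
  have hfloor := sqrt_floor_ge n (by omega)
  have hQ' : (1 / 2 - κ) * n ≤ Q G' y := by
    have h1 : 1 / (2 * κ) ≤ n := hn1.trans (by exact_mod_cast hn1n)
    rw [div_le_iff₀ (by positivity)] at h1
    nlinarith
  -- the cluster graph
  have hcl := clusters G P (d := d) hε1pos
  let cl : α → {s // s ∈ P.parts} := fun u => ⟨P.part u, P.part_mem.2 (mem_univ u)⟩
  have hclmem : ∀ u, u ∈ (cl u : Finset α) := fun u => P.mem_part (mem_univ u)
  have hGR : ∀ u v, G'.Adj u v → (clusterGraph G P ε1 d).Adj (cl u) (cl v) := by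
    intro u v huv
    rw [hG', regularityReduced_adj] at huv
    obtain ⟨_, U, hU, V, hV, huU, hvV, hUV, hunif, hdens⟩ := huv
    have h1 : P.part u = U := P.eq_of_mem_parts (cl u).2 hU (hclmem u) huU
    have h2 : P.part v = V := P.eq_of_mem_parts (cl v).2 hV (hclmem v) hvV
    refine ⟨?_, ?_, ?_⟩
    · change P.part u ≠ P.part v
      rw [h1, h2]; exact hUV
    · change G.IsUniform ε1 (P.part u) (P.part v)
      rw [h1, h2]; exact hunif
    · change d ≤ (G.edgeDensity (P.part u) (P.part v) : ℝ)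
      rw [h1, h2]; exact hdens
  obtain ⟨c, hcN, hcQ⟩ := exists_comp G'
    (fun u => (clusterGraph G P ε1 d).connectedComponentMk (cl u))
    (fun u v huv => ConnectedComponent.sound (hGR u v huv).reachable) y ((1 / 2 - κ) * n)
    (by rw [hy1]; norm_num) (by rw [hy1, mul_one]; exact hQ')
  set yc : α → ℝ := fun u => if (clusterGraph G P ε1 d).connectedComponentMk (cl u) = c
    then y u else 0 with hyc
  obtain ⟨H, hHadj⟩ : ∃ H : SimpleGraph α, ∀ u v, H.Adj u v ↔ G'.Adj u v ∧
      (clusterGraph G P ε1 d).connectedComponentMk (cl u) = c :=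
    ⟨{ Adj := fun u v => G'.Adj u v ∧ (clusterGraph G P ε1 d).connectedComponentMk (cl u) = c
       symm := ⟨fun u v h => ⟨h.1.symm, by
         rw [← h.2]
         exact (ConnectedComponent.sound (hGR u v h.1).reachable).symm⟩⟩
       loopless := ⟨fun u h => G'.loopless.irrefl u h.1⟩ }, fun u v => Iff.rfl⟩
  have hHG : ∀ u v, H.Adj u v → G.Adj u v := fun u v h => hG'le ((hHadj u v).mp h).1
  have hQH : Q H yc = Q G' yc := by
    unfold Q
    apply Finset.sum_congr rfl; intro u _
    apply Finset.sum_congr rfl; intro v _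
    by_cases h1 : G'.Adj u v
    · by_cases h2 : (clusterGraph G P ε1 d).connectedComponentMk (cl u) = c
      · have h3 : H.Adj u v := (hHadj u v).mpr ⟨h1, h2⟩
        simp only [h1, h3, if_true]
      · have h3 : ¬ H.Adj u v := fun h => h2 ((hHadj u v).mp h).2
        have h4 : yc u = 0 := by rw [hyc]; simp only [h2, if_false]
        simp only [h1, h3, if_true, if_false, h4, zero_mul]
    · have h3 : ¬ H.Adj u v := fun h => h1 ((hHadj u v).mp h).1
      simp only [h1, h3, if_false]
  rw [← hQH] at hcQ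
  by_cases htri : ∃ u v w, H.Adj u v ∧ H.Adj v w ∧ H.Adj w u
  · apply hfree
    exact long_cycle hP1 hη0 hη0' hdpos hdle hε1 (clusterGraph G P ε1 d) hcl H c
      (fun u v huv => ⟨cl u, cl v, hGR u v ((hHadj u v).mp huv).1, hclmem u, hclmem v,
        ((hHadj u v).mp huv).2⟩)
      yc hcN κ (by rw [hκ]; linarith) M X hP3 hXa hXb hXc hMn (by omega) hcQ htri l hodd hl3 hl
  · -- triangle-free component: near-extremal case
    have hκn : 0 ≤ (1 / 2 - κ) * (n : ℝ) := by
      apply mul_nonneg _ (Nat.cast_nonneg _); linarith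
    obtain ⟨v, hv⟩ := exists_walk2 H yc _ hκn hcN hcQ
    have hnear := near_main (G := G) (H.neighborFinset v) l hodd hl5 (by
        have h1 : (5 : ℝ) * l ≤ 2 * n := by nlinarith
        exact_mod_cast h1) hn10 (by
        have h1 : (1 / 4 - 1 / 20000) * (n : ℝ) ^ 2 ≤ ((1 / 2 - κ) * n) ^ 2 := by
          have h2 : (1 / 4 - 1 / 20000 : ℝ) ≤ (1 / 2 - κ) ^ 2 := by nlinarith
          calc (1 / 4 - 1 / 20000) * (n : ℝ) ^ 2 ≤ (1 / 2 - κ) ^ 2 * (n : ℝ) ^ 2 :=
                mul_le_mul_of_nonneg_right h2 (sq_nonneg _)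
            _ = _ := by ring
        refine h1.trans (hv.trans ?_)
        have h3 : (∑ u, if H.Adj v u then (H.degree u : ℝ) else 0)
            = ∑ u ∈ H.neighborFinset v, (H.degree u : ℝ) := by
          rw [Finset.sum_ite, Finset.sum_const_zero, add_zero]
          apply Finset.sum_congr
          · ext u; simp
          · intro _ _; rfl
        rw [h3]
        apply Finset.sum_le_sum
        intro x hx
        rw [mem_neighborFinset] at hx
        rw [Nat.cast_le, ← card_neighborFinset_eq_degree]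
        apply Finset.card_le_card
        intro w hw
        rw [mem_neighborFinset] at hw
        rw [Finset.mem_filter, Finset.mem_sdiff, mem_neighborFinset]
        exact ⟨⟨Finset.mem_univ _, fun hvw => htri ⟨v, x, w, hx, hw, hvw.symm⟩⟩, hHG x w hw⟩)
      hfree y
    rw [hy1, mul_one] at hnear
    linarith

end Pool.Agent.H47.Odd
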